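import Pool.Agent.U597.PC.Main

set_option linter.unusedSectionVars false

namespace Pool.Agent.U597.PC

open Classical

variable {ι : Type*} [Fintype ι] [DecidableEq ι] {s : ℕ}

/-- The structure theorem for idempotent operations. -/
theorem core {G : ι → (Fin s → Bool) → Bool} {C : Finset (ι → Bool)} (hG : Closed G C)
    (hid : ∀ i a, G i (fun _ => a) = a) (d : ℕ) (hd : 1 ≤ d) (hmin : MinDist d C)
    (J L U : Finset ι) (hJ : ∀ i, i ∈ J ↔ IsAffine (G i)) (hU : ∀ i, i ∈ U ↔ IsUnary (G i))
    (hL : ∀ i, i ∈ L ↔ (i ∈ J ∧ i ∉ U)) :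
    C.card ≤ 2 ^ ((Finset.univ \ J).card / d) * ((C.image (res L)).card * (C.image (res U)).card) ∧
    (∀ x ∈ C, ∀ y ∈ C, (∃ i ∈ L, x i ≠ y i) → d ≤ (L.filter fun i => x i ≠ y i).card) ∧
    (∀ x ∈ C, ∀ y ∈ C, (∃ i ∈ U, x i ≠ y i) → d ≤ (U.filter fun i => x i ≠ y i).card) ∧
    (∀ x ∈ C, ∀ y ∈ C, ∃ z ∈ C, (∀ i ∈ L, z i = x i) ∧ (∀ i ∈ U, z i = y i)) ∧
    (∀ x ∈ C, ∀ y ∈ C, ∀ z ∈ C, ∃ w ∈ C, ∀ i ∈ L, w i = xor (x i) (xor (y i) (z i))) := by
  have hUJ : U ⊆ J := fun i hi => (hJ i).2 (unary_affine (hid i) ((hU i).1 hi))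
  have hLJ : L ⊆ J := fun i hi => ((hL i).1 hi).1
  obtain ⟨B, hB, hBgood, hBfirst⟩ := exB C J
  set I : Finset ι := Finset.univ.filter fun i => B i false true = B i true false with hI
  have hImem : ∀ i, i ∈ I ↔ B i false true = B i true false := fun i => by simp [hI]
  have hIJ : ∀ i ∈ I, i ∉ J := fun i hi hiJ => hB.aff i hiJ ((hImem i).1 hi)
  have hoff : ∀ i, i ∉ I → ∀ a b, B i a b = a := fun i hi =>
    hBfirst i (fun h => hi ((hImem i).2 h))
  set K : Finset ι := Finset.univ.filter fun i => i ∉ J ∧ i ∉ I with hK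
  have hKmem : ∀ i, i ∈ K ↔ (i ∉ J ∧ i ∉ I) := fun i => by simp [hK]
  have hKb : ∀ i ∈ K, ∀ B', Mem2 C J B' → B' i false true ≠ B' i true false := by
    intro i hi B' hB' he
    exact ((hKmem i).1 hi).2 ((hImem i).2 (hBgood i ⟨B', hB', he⟩))
  -- ternary members at K
  have hsd : ∀ T, Mem3 C J U T → ∀ i ∈ K, ∃ p q r, T i = sd p q r := by
    intro T hT i hi
    have b1 : Mem2 C J (fun i a b => T i a a b) := by
      refine ⟨fun i a => hT.idem i a, fun x hx y hy => hT.cl x hx x hx y hy, fun i hi => ?_⟩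
      obtain ⟨p, q, r, -, -, e⟩ := hT.aff i hi
      rw [e]
      cases r <;> simp [sd]
    have b2 : Mem2 C J (fun i a b => T i a b a) := by
      refine ⟨fun i a => hT.idem i a, fun x hx y hy => hT.cl x hx y hy x hx, fun i hi => ?_⟩
      obtain ⟨p, q, r, -, -, e⟩ := hT.aff i hi
      rw [e]
      cases q <;> simp [sd]
    have b3 : Mem2 C J (fun i a b => T i b a a) := by
      refine ⟨fun i a => hT.idem i a, fun x hx y hy => hT.cl y hy x hx x hx, fun i hi => ?_⟩
      obtain ⟨p, q, r, -, -, e⟩ := hT.aff i hi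
      rw [e]
      cases p <;> simp [sd]
    have c1 := hKb i hi _ b1
    have c2 := hKb i hi _ b2
    have c3 := hKb i hi _ b3
    have e1 := hT.idem i true
    have e2 := hT.idem i false
    refine ⟨_, _, _, sd_of (T i) (hT.idem i) ?_⟩
    intro a b c
    revert c1 c2 c3
    cases a <;> cases b <;> cases c <;> simp [e1, e2]
    all_goals
      cases T i false false true <;> cases T i true true false <;>
      cases T i false true false <;> cases T i true false true <;>
      cases T i true false false <;> cases T i false true true <;> simp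
  have hex : ∀ i ∈ K, ∃ T, Mem3 C J U T ∧ ∃ p q r, odd p q r = false ∧ T i = sd p q r := by
    intro i hi
    have hb : ∀ v, G i (fun j => !(v j)) ≠ G i v := by
      intro v
      have := hKb i hi _ (mem_bm hG hid (fun i hi => (hJ i).1 hi) v)
      rw [bm01, bm10] at this
      exact fun h => this h.symm
    obtain ⟨π, hπ⟩ := not_affine (G := G) (i := i)
      (fun h => ((hKmem i).1 hi).1 ((hJ i).2 h)) hb
    refine ⟨_, mem_tm hG hid (fun i hi => (hJ i).1 hi) (fun i hi => (hU i).1 hi) π, _, _, _,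
      hπ, tm_sd (hid i) (fun v => ?_) π⟩
    have := hb v
    revert this
    cases G i (fun j => !(v j)) <;> cases G i v <;> simp
  obtain ⟨M, hM, hMK, hMJ⟩ := exM C J U K hsd hex
  obtain ⟨P, hP, hPL, hPU⟩ := exP C J U hUJ (fun i hi hiU => by
    obtain ⟨π, hπ⟩ := affine_not_unary (hid i) ((hJ i).1 hi) (fun h => hiU ((hU i).2 h))
    exact ⟨_, mem_tm hG hid (fun i hi => (hJ i).1 hi) (fun i hi => (hU i).1 hi) π, hπ⟩)
  -- completions
  set c : ι → Bool := fun i => B i false true with hc
  have hval : ∀ i ∈ I, ∀ a b, B i a b = c i ↔ (a = c i ∨ b = c i) := fun i hi a b =>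
    Bval (hB.idem i) ((hImem i).1 hi) a b
  have hcomp : ∀ a ∈ C, ∃ a' ∈ C, (∀ i, i ∉ I → a' i = a i) ∧
      (∀ i ∈ I, a' i = c i ↔ ∃ x ∈ C, x i = c i) := by
    intro a ha
    obtain ⟨m, hm, hmax⟩ := exMax (C.filter fun x => ∀ i, i ∉ I → x i = a i)
      ⟨a, Finset.mem_filter.2 ⟨ha, fun _ _ => rfl⟩⟩ I c
    rw [Finset.mem_filter] at hm
    refine ⟨m, hm.1, hm.2, fun i hi => ⟨fun h => ⟨m, hm.1, h⟩, ?_⟩⟩
    rintro ⟨x, hx, hxi⟩
    refine hmax (fun i => B i (m i) (x i)) (Finset.mem_filter.2 ⟨hB.cl m hm.1 x hx, ?_⟩)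
      (fun j hj hmj => (hval j hj _ _).2 (Or.inl hmj)) i hi ((hval i hi _ _).2 (Or.inr hxi))
    intro j hj
    show B j (m j) (x j) = a j
    rw [hoff j hj]
    exact hm.2 j hj
  have hcanon : ∀ a' b' : ι → Bool, (∀ i ∈ I, a' i = c i ↔ ∃ x ∈ C, x i = c i) →
      (∀ i ∈ I, b' i = c i ↔ ∃ x ∈ C, x i = c i) → ∀ i ∈ I, a' i = b' i := by
    intro a' b' h1 h2 i hi
    have := (h1 i hi).trans (h2 i hi).symm
    revert this
    cases a' i <;> cases b' i <;> cases c i <;> simp
  -- gluing
  have s1 : ∀ a b : Bool, sd true true true b a b = a := by decide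
  have s2 : ∀ a b c : Bool, sd true false false a b c = a := by decide
  have s3 : ∀ a b : Bool, sd false false false a b b = b := by decide
  have s4 : ∀ a b c : Bool, sd true true true a b c = xor a (xor b c) := by decide
  have hglue : ∀ a ∈ C, ∀ b ∈ C, ∀ e ∈ C, ∃ z ∈ C, (∀ i ∈ L, z i = a i) ∧ (∀ i ∈ U, z i = b i) ∧
      (∀ i ∈ K, z i = e i) ∧ (∀ i ∈ I, z i = c i ↔ ∃ x ∈ C, x i = c i) := by
    intro a ha b hb e he
    have h1 := hP.cl b hb a ha b hb
    have h2 := hM.cl _ h1 e he e he
    obtain ⟨z, hz, hz1, hz2⟩ := hcomp _ h2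
    refine ⟨z, hz, fun i hi => ?_, fun i hi => ?_, fun i hi => ?_, hz2⟩
    · have hiJ := hLJ hi
      rw [hz1 i (fun h => hIJ i h hiJ), hMJ i hiJ, s2, hPL i hiJ ((hL i).1 hi).2, s1]
    · have hiJ := hUJ hi
      rw [hz1 i (fun h => hIJ i h hiJ), hMJ i hiJ, s2, hPU i hi, s2]
    · rw [hz1 i ((hKmem i).1 hi).2, hMK i hi, s3]
  have hcover : ∀ i, i ∈ L ∨ i ∈ U ∨ i ∈ K ∨ i ∈ I := by
    intro i
    by_cases h1 : i ∈ J
    · by_cases h2 : i ∈ U
      · exact Or.inr (Or.inl h2)
      · exact Or.inl ((hL i).2 ⟨h1, h2⟩)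
    · by_cases h3 : i ∈ I
      · exact Or.inr (Or.inr (Or.inr h3))
      · exact Or.inr (Or.inr (Or.inl ((hKmem i).2 ⟨h1, h3⟩)))
  have hLU : ∀ i ∈ L, i ∉ U := fun i hi => ((hL i).1 hi).2
  refine ⟨?_, ?_, ?_, ?_, ?_⟩
  · -- the bound
    have hfib1 : C.card ≤ 2 ^ (I.card / d) * (C.image (res Iᶜ)).card := by
      refine Finset.card_le_mul_card_image C _ ?_
      intro v hv
      obtain ⟨a, ha, rfl⟩ := Finset.mem_image.1 hv
      refine semi hB.idem I (fun i hi => (hImem i).1 hi) d hd _ ?_ ?_ ?_
      · intro x hx y hy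
        rw [Finset.mem_filter] at hx hy ⊢
        refine ⟨hB.cl x hx.1 y hy.1, ?_⟩
        rw [← hx.2]
        funext i
        unfold res
        by_cases hi : i ∈ Iᶜ
        · simp only [hi, if_true]
          rw [hoff i (Finset.mem_compl.1 hi)]
        · simp only [hi, if_false]
      · intro x hx y hy hxy
        exact hmin x (Finset.mem_filter.1 hx).1 y (Finset.mem_filter.1 hy).1 hxy
      · intro x hx y hy i hi
        have h1 := congrFun (Finset.mem_filter.1 hx).2 i
        have h2 := congrFun (Finset.mem_filter.1 hy).2 i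
        have hi' : i ∈ Iᶜ := Finset.mem_compl.2 hi
        simp only [res, hi', if_true] at h1 h2
        rw [h1, h2]
    set S := C.image (res Iᶜ) with hS
    have hScl : ∀ x ∈ S, ∀ y ∈ S, ∀ z ∈ S, (fun i => M i (x i) (y i) (z i)) ∈ S := by
      intro x hx y hy z hz
      obtain ⟨x', hx', rfl⟩ := Finset.mem_image.1 hx
      obtain ⟨y', hy', rfl⟩ := Finset.mem_image.1 hy
      obtain ⟨z', hz', rfl⟩ := Finset.mem_image.1 hz
      refine Finset.mem_image.2 ⟨_, hM.cl x' hx' y' hy' z' hz', ?_⟩
      funext i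
      unfold res
      by_cases hi : i ∈ Iᶜ
      · simp only [hi, if_true]
      · simp only [hi, if_false]
        exact (hM.idem i false).symm
    have hSmin : MinDist d S := by
      intro x hx y hy hxy
      obtain ⟨x', hx', rfl⟩ := Finset.mem_image.1 hx
      obtain ⟨y', hy', rfl⟩ := Finset.mem_image.1 hy
      obtain ⟨a, ha, ha1, ha2⟩ := hcomp x' hx'
      obtain ⟨b, hb, hb1, hb2⟩ := hcomp y' hy'
      have r1 : ∀ (z : ι → Bool) (i : ι), i ∈ I → res Iᶜ z i = false := by
        intro z i hi
        simp [res, hi]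
      have r2 : ∀ (z : ι → Bool) (i : ι), i ∉ I → res Iᶜ z i = z i := by
        intro z i hi
        simp [res, hi]
      have heq : (Finset.univ.filter fun i => res Iᶜ x' i ≠ res Iᶜ y' i) =
          Finset.univ.filter fun i => a i ≠ b i := by
        apply Finset.filter_congr
        intro i _
        by_cases hi : i ∈ I
        · rw [r1 x' i hi, r1 y' i hi, hcanon a b ha2 hb2 i hi]
          simp
        · rw [r2 x' i hi, r2 y' i hi, ha1 i hi, hb1 i hi]
      rw [heq]
      apply hmin a ha b hb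
      intro hab
      apply hxy
      funext i
      unfold res
      by_cases hi : i ∈ I
      · have hi' : i ∉ Iᶜ := fun h => (Finset.mem_compl.1 h) hi
        simp only [hi', if_false]
      · have hi' : i ∈ Iᶜ := Finset.mem_compl.2 hi
        simp only [hi', if_true]
        rw [← ha1 i hi, ← hb1 i hi, hab]
    have hfib2 : S.card ≤ 2 ^ (K.card / d) * (S.image (res J)).card := by
      refine Finset.card_le_mul_card_image S _ ?_
      intro v hv
      refine maj hM.idem K hMK d hd _ ?_ ?_ ?_
      · intro x hx y hy z hz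
        rw [Finset.mem_filter] at hx hy hz ⊢
        refine ⟨hScl x hx.1 y hy.1 z hz.1, ?_⟩
        rw [← hx.2]
        funext i
        unfold res
        by_cases hi : i ∈ J
        · simp only [hi, if_true]
          rw [hMJ i hi, s2]
        · simp only [hi, if_false]
      · intro x hx y hy hxy
        exact hSmin x (Finset.mem_filter.1 hx).1 y (Finset.mem_filter.1 hy).1 hxy
      · intro x hx y hy i hi
        by_cases hiJ : i ∈ J
        · have h1 := congrFun (Finset.mem_filter.1 hx).2 i
          have h2 := congrFun (Finset.mem_filter.1 hy).2 i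
          simp only [res, hiJ, if_true] at h1 h2
          rw [h1, h2]
        · have hiI : i ∈ I := by
            by_contra h
            exact hi ((hKmem i).2 ⟨hiJ, h⟩)
          obtain ⟨x', -, hx'⟩ := Finset.mem_image.1 (Finset.mem_filter.1 hx).1
          obtain ⟨y', -, hy'⟩ := Finset.mem_image.1 (Finset.mem_filter.1 hy).1
          have hi' : i ∉ Iᶜ := fun h => (Finset.mem_compl.1 h) hiI
          rw [← hx', ← hy']
          simp only [res, hi', if_false]
    have hfib3 : (S.image (res J)).card ≤ (C.image (res L)).card * (C.image (res U)).card := by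
      rw [← Finset.card_product]
      refine Finset.card_le_card_of_injOn (fun u => (res L u, res U u)) ?_ ?_
      · intro u hu
        obtain ⟨v, hv, rfl⟩ := Finset.mem_image.1 (Finset.mem_coe.1 hu)
        obtain ⟨x, hx, rfl⟩ := Finset.mem_image.1 hv
        refine Finset.mem_coe.2 (Finset.mem_product.2 ⟨Finset.mem_image.2 ⟨x, hx, ?_⟩,
          Finset.mem_image.2 ⟨x, hx, ?_⟩⟩)
        · funext i
          simp only [res]
          by_cases hi : i ∈ L
          · have h1 := hLJ hi
            have h2 : i ∈ Iᶜ := Finset.mem_compl.2 (fun h => hIJ i h h1)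
            simp only [hi, h1, h2, if_true]
          · simp only [hi, if_false]
        · funext i
          simp only [res]
          by_cases hi : i ∈ U
          · have h1 := hUJ hi
            have h2 : i ∈ Iᶜ := Finset.mem_compl.2 (fun h => hIJ i h h1)
            simp only [hi, h1, h2, if_true]
          · simp only [hi, if_false]
      · intro u hu v hv huv
        obtain ⟨u', -, rfl⟩ := Finset.mem_image.1 (Finset.mem_coe.1 hu)
        obtain ⟨v', -, rfl⟩ := Finset.mem_image.1 (Finset.mem_coe.1 hv)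
        simp only [Prod.mk.injEq] at huv
        funext i
        by_cases hiJ : i ∈ J
        · by_cases hiU : i ∈ U
          · have := congrFun huv.2 i
            simpa [res, hiU, hiJ] using this
          · have hiL := (hL i).2 ⟨hiJ, hiU⟩
            have := congrFun huv.1 i
            simpa [res, hiL, hiJ] using this
        · simp [res, hiJ]
    have hcard : I.card + K.card = (Finset.univ \ J).card := by
      rw [← Finset.card_union_of_disjoint]
      · congr 1
        ext i
        simp only [Finset.mem_union, Finset.mem_sdiff, Finset.mem_univ, true_and, hKmem]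
        constructor
        · rintro (h | h)
          · exact hIJ i h
          · exact h.1
        · intro h
          by_cases hi : i ∈ I
          · exact Or.inl hi
          · exact Or.inr ⟨h, hi⟩
      · rw [Finset.disjoint_left]
        intro i hi hi'
        exact ((hKmem i).1 hi').2 hi
    calc C.card ≤ 2 ^ (I.card / d) * S.card := hfib1
      _ ≤ 2 ^ (I.card / d) * (2 ^ (K.card / d) * (S.image (res J)).card) :=
        Nat.mul_le_mul_left _ hfib2
      _ = 2 ^ (I.card / d + K.card / d) * (S.image (res J)).card := by rw [pow_add, mul_assoc]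
      _ ≤ 2 ^ ((Finset.univ \ J).card / d) * ((C.image (res L)).card * (C.image (res U)).card) := by
        apply Nat.mul_le_mul _ hfib3
        apply Nat.pow_le_pow_right (by norm_num)
        rw [← hcard]
        exact Nat.div_add_div_le_add_div
  · intro x hx y hy hxy
    obtain ⟨a, ha, a1, a2, a3, a4⟩ := hglue x hx x hx x hx
    obtain ⟨b, hb, b1, b2, b3, b4⟩ := hglue y hy x hx x hx
    have heq : (Finset.univ.filter fun i => a i ≠ b i) = L.filter fun i => x i ≠ y i := by
      ext i
      simp only [Finset.mem_filter, Finset.mem_univ, true_and]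
      rcases hcover i with h | h | h | h
      · rw [a1 i h, b1 i h]
        simp [h]
      · have hnL : i ∉ L := fun h' => hLU i h' h
        simp [hnL, a2 i h, b2 i h]
      · have hnL : i ∉ L := fun h' => ((hKmem i).1 h).1 (hLJ h')
        simp [hnL, a3 i h, b3 i h]
      · have hnL : i ∉ L := fun h' => hIJ i h (hLJ h')
        simp [hnL, hcanon a b a4 b4 i h]
    rw [← heq]
    obtain ⟨i, hi, hne⟩ := hxy
    exact hmin a ha b hb (fun h => hne (by rw [← a1 i hi, ← b1 i hi, h]))
  · intro x hx y hy hxy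
    obtain ⟨a, ha, a1, a2, a3, a4⟩ := hglue x hx x hx x hx
    obtain ⟨b, hb, b1, b2, b3, b4⟩ := hglue x hx y hy x hx
    have heq : (Finset.univ.filter fun i => a i ≠ b i) = U.filter fun i => x i ≠ y i := by
      ext i
      simp only [Finset.mem_filter, Finset.mem_univ, true_and]
      rcases hcover i with h | h | h | h
      · have hnU : i ∉ U := hLU i h
        simp [hnU, a1 i h, b1 i h]
      · rw [a2 i h, b2 i h]
        simp [h]
      · have hnU : i ∉ U := fun h' => ((hKmem i).1 h).1 (hUJ h')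
        simp [hnU, a3 i h, b3 i h]
      · have hnU : i ∉ U := fun h' => hIJ i h (hUJ h')
        simp [hnU, hcanon a b a4 b4 i h]
    rw [← heq]
    obtain ⟨i, hi, hne⟩ := hxy
    exact hmin a ha b hb (fun h => hne (by rw [← a2 i hi, ← b2 i hi, h]))
  · intro x hx y hy
    obtain ⟨a, ha, a1, a2, -, -⟩ := hglue x hx y hy x hx
    exact ⟨a, ha, a1, a2⟩
  · intro x hx y hy z hz
    refine ⟨_, hP.cl x hx y hy z hz, fun i hi => ?_⟩
    rw [hPL i (hLJ hi) (hLU i hi), s4]

end Pool.Agent.U597.PC
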