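import Mathlib

namespace Pool.Agent.U597.PC

variable {ι : Type*} [Fintype ι] [DecidableEq ι]

/-- Distinct elements of `C` differ in at least `d` places. -/
def MinDist (d : ℕ) (C : Finset (ι → Bool)) : Prop :=
  ∀ x ∈ C, ∀ y ∈ C, x ≠ y → d ≤ (Finset.univ.filter fun i => x i ≠ y i).card

theorem peel (P : Finset (ι → Bool) → Prop)
    (h1 : ∀ D, P D → ∀ (E : Finset ι) (v : ι → Bool), v ∈ D →
      P (D.filter fun z => ∀ i ∈ E, z i = v i))
    (h2 : ∀ D, P D → 2 ≤ D.card → ∃ x ∈ D, ∃ y ∈ D, x ≠ y ∧
      ∀ z ∈ D, (∀ i, x i ≠ y i → z i = x i) ∨ (∀ i, x i ≠ y i → z i = y i))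
    (d : ℕ) (hd : 1 ≤ d) :
    ∀ (k : ℕ) (A : Finset ι) (D : Finset (ι → Bool)), A.card = k → P D → MinDist d D →
      (∀ x ∈ D, ∀ y ∈ D, ∀ i, i ∉ A → x i = y i) → D.card ≤ 2 ^ (A.card / d) := by
  intro k
  induction k using Nat.strong_induction_on with
  | _ k ih =>
  intro A D hA hP hmin hag
  by_cases hc : 2 ≤ D.card
  · obtain ⟨x, hx, y, hy, hxy, hz⟩ := h2 D hP hc
    set E := Finset.univ.filter fun i => x i ≠ y i with hE
    have hEd : d ≤ E.card := hmin x hx y hy hxy
    have hEA : E ⊆ A := by
      intro i hi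
      by_contra hiA
      exact (Finset.mem_filter.1 hi).2 (hag x hx y hy i hiA)
    have hAE : (A \ E).card = A.card - E.card := Finset.card_sdiff_of_subset hEA
    have hle : E.card ≤ A.card := Finset.card_le_card hEA
    have key : ∀ v ∈ D, (D.filter fun z => ∀ i ∈ E, z i = v i).card ≤ 2 ^ ((A \ E).card / d) := by
      intro v hv
      refine ih (A \ E).card (by omega) (A \ E) _ rfl (h1 D hP E v hv) ?_ ?_
      · intro a ha b hb hab
        exact hmin a (Finset.mem_filter.1 ha).1 b (Finset.mem_filter.1 hb).1 hab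
      · intro a ha b hb i hi
        by_cases hiA : i ∈ A
        · have hiE : i ∈ E := by
            by_contra h
            exact hi (Finset.mem_sdiff.2 ⟨hiA, h⟩)
          rw [(Finset.mem_filter.1 ha).2 i hiE, (Finset.mem_filter.1 hb).2 i hiE]
        · exact hag a (Finset.mem_filter.1 ha).1 b (Finset.mem_filter.1 hb).1 i hiA
    have hcov : D ⊆ (D.filter fun z => ∀ i ∈ E, z i = x i) ∪
        (D.filter fun z => ∀ i ∈ E, z i = y i) := by
      intro z hzD
      rcases hz z hzD with h | h
      · exact Finset.mem_union_left _ (Finset.mem_filter.2 ⟨hzD, fun i hi =>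
          h i (Finset.mem_filter.1 hi).2⟩)
      · exact Finset.mem_union_right _ (Finset.mem_filter.2 ⟨hzD, fun i hi =>
          h i (Finset.mem_filter.1 hi).2⟩)
    calc D.card ≤ _ := Finset.card_le_card hcov
      _ ≤ _ := Finset.card_union_le _ _
      _ ≤ 2 ^ ((A \ E).card / d) + 2 ^ ((A \ E).card / d) :=
        Nat.add_le_add (key x hx) (key y hy)
      _ = 2 ^ ((A \ E).card / d + 1) := by ring
      _ ≤ 2 ^ (A.card / d) := by
        apply Nat.pow_le_pow_right (by norm_num)
        rw [hAE]
        have : (A.card - E.card) / d + 1 = (A.card - E.card + d) / d := by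
          rw [Nat.add_div_right _ hd]
        rw [this]
        exact Nat.div_le_div_right (by omega)
  · have : D.card ≤ 1 := by omega
    exact this.trans Nat.one_le_two_pow

/-- Idempotent self-dual ternary operation with the values `p, q, r` at 100, 010, 001. -/
def sd (p q r a b c : Bool) : Bool :=
  if a = b then (if b = c then a else xor r a) else (if b = c then xor p b else xor q a)

def odd (p q r : Bool) : Bool := xor p (xor q r)

def nice (p q r : Bool) : Bool := !((p && q) || (q && r) || (p && r))

theorem sd_of (g : Bool → Bool → Bool → Bool) (h1 : ∀ a, g a a a = a)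
    (h2 : ∀ a b c, g (!a) (!b) (!c) = !(g a b c)) :
    g = sd (g true false false) (g false true false) (g false false true) := by
  have e1 := h1 true
  have e2 := h1 false
  have e3 := h2 true false false
  have e4 := h2 false true false
  have e5 := h2 false false true
  simp only [Bool.not_true, Bool.not_false] at e3 e4 e5
  funext a b c
  cases a <;> cases b <;> cases c <;> simp [sd, e1, e2, e3, e4, e5]

theorem comb_odd : ∀ p q r p' q' r' : Bool, odd p q r = true → odd p' q' r' = true →
    ∃ p'' q'' r'' : Bool, odd p'' q'' r'' = true ∧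
      ((odd p q r = true ∧ nice p q r = true ∧ nice p' q' r' = true) →
        nice p'' q'' r'' = true) ∧
      (((p = true ∧ q = true ∧ r = true) ∨ (p' = true ∧ q' = true ∧ r' = true)) →
        (p'' = true ∧ q'' = true ∧ r'' = true)) ∧
      ∀ a b c, sd p q r (sd p' q' r' a b c) (sd p' q' r' b c a) (sd p' q' r' c a b) =
        sd p'' q'' r'' a b c := by
  decide

theorem comb_nice : ∀ p q r p' q' r' : Bool, nice p q r = true → nice p' q' r' = true →
    ∃ p'' q'' r'' : Bool, nice p'' q'' r'' = true ∧
      (((p = false ∧ q = false ∧ r = false) ∨ (p' = false ∧ q' = false ∧ r' = false)) →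
        (p'' = false ∧ q'' = false ∧ r'' = false)) ∧
      ∀ a b c, sd p q r (sd p' q' r' a b c) (sd p' q' r' b c a) (sd p' q' r' c a b) =
        sd p'' q'' r'' a b c := by
  decide

def n1 (g : Bool → Bool → Bool → Bool) (a b c : Bool) : Bool := g (g a b c) b c
def n2 (g : Bool → Bool → Bool → Bool) (a b c : Bool) : Bool := g a b (g a b c)
def n3 (g : Bool → Bool → Bool → Bool) (a b c : Bool) : Bool := g a (g a b c) c
def fin3 (g : Bool → Bool → Bool → Bool) (a b c : Bool) : Bool :=
  g (g a b c) (g c a b) (g b c a)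
def comb (g h : Bool → Bool → Bool → Bool) (a b c : Bool) : Bool :=
  g (h a b c) (h b c a) (h c a b)

theorem norm_code : ∀ p q r : Bool, ∃ p' q' r' : Bool, nice p' q' r' = true ∧
      (odd p q r = false → (p' = false ∧ q' = false ∧ r' = false)) ∧
      (odd p q r = true → odd p' q' r' = true) ∧
      ∀ a b c, n3 (n2 (n1 (sd p q r))) a b c = sd p' q' r' a b c := by
  decide

theorem fin_code : ∀ p q r : Bool, 
      ((p = false ∧ q = false ∧ r = false) → ∀ a b c, fin3 (sd p q r) a b c =
        sd false false false a b c) ∧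
      ((p = true ∧ q = true ∧ r = true) → ∀ a b c, fin3 (sd p q r) a b c =
        sd true true true a b c) ∧
      ((odd p q r = true ∧ nice p q r = true) → ∀ a b c, fin3 (sd p q r) a b c =
        sd true false false a b c) ∧ 
      (odd p q r = true → ∃ p' q' r' : Bool, odd p' q' r' = true ∧
        (nice p q r = true → nice p' q' r' = true) ∧ 
        ∀ a b c, fin3 (sd p q r) a b c = sd p' q' r' a b c) := by
  decide

end Pool.Agent.U597.PC
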