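import Pool.Agent.U597.PC.Asm

set_option linter.unusedSectionVars false

namespace Pool.Agent.U597.PC

open Classical

variable {ι : Type*} [Fintype ι] [DecidableEq ι] {s : ℕ}

theorem affine_not {f : (Fin s → Bool) → Bool} : IsAffine (fun v => !(f v)) ↔ IsAffine f := by
  have key : ∀ a b c e : Bool, ((!a) = xor (!b) (xor (!c) (!e))) ↔ (a = xor b (xor c e)) := by
    decide
  exact forall_congr' fun x => forall_congr' fun y => forall_congr' fun z => key _ _ _ _

theorem unary_not {f : (Fin s → Bool) → Bool} : IsUnary (fun v => !(f v)) ↔ IsUnary f := by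
  unfold IsUnary
  constructor
  · rintro ⟨j, hj⟩
    exact ⟨j, fun x y h => by simpa using hj x y h⟩
  · rintro ⟨j, hj⟩
    exact ⟨j, fun x y h => by simpa using hj x y h⟩

/-- The structure theorem. -/
theorem structure_theorem {F : ι → (Fin s → Bool) → Bool}
    (hF : ∀ i, F i (fun _ => false) ≠ F i (fun _ => true))
    {C : Finset (ι → Bool)} (hC : Closed F C) (d : ℕ) (hd : 1 ≤ d) (hmin : MinDist d C)
    (N L U : Finset ι) (hN : ∀ i, i ∈ N ↔ ¬ IsAffine (F i))
    (hL : ∀ i, i ∈ L ↔ (IsAffine (F i) ∧ ¬ IsUnary (F i)))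
    (hU : ∀ i, i ∈ U ↔ IsUnary (F i)) :
    C.card ≤ 2 ^ (N.card / d) * ((C.image (res L)).card * (C.image (res U)).card) ∧
    (∀ x ∈ C, ∀ y ∈ C, (∃ i ∈ L, x i ≠ y i) → d ≤ (L.filter fun i => x i ≠ y i).card) ∧
    (∀ x ∈ C, ∀ y ∈ C, (∃ i ∈ U, x i ≠ y i) → d ≤ (U.filter fun i => x i ≠ y i).card) ∧
    (∀ x ∈ C, ∀ y ∈ C, ∃ z ∈ C, (∀ i ∈ L, z i = x i) ∧ (∀ i ∈ U, z i = y i)) ∧
    (∀ x ∈ C, ∀ y ∈ C, ∀ z ∈ C, ∃ w ∈ C, ∀ i ∈ L, w i = xor (x i) (xor (y i) (z i))) := by
  set G : ι → (Fin s → Bool) → Bool := fun i v => F i (fun _ => F i v) with hG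
  have hcase : ∀ i, (∀ v, G i v = F i v) ∨ (∀ v, G i v = !(F i v)) := by
    intro i
    have := hF i
    rcases h0 : F i (fun _ => false) with _ | _ <;> rcases h1 : F i (fun _ => true) with _ | _
    · rw [h0, h1] at this
      exact absurd rfl this
    · left
      intro v
      simp only [hG]
      cases F i v
      · exact h0
      · exact h1
    · right
      intro v
      simp only [hG]
      cases F i v
      · simpa using h0
      · simpa using h1
    · rw [h0, h1] at this
      exact absurd rfl this
  have hid : ∀ i a, G i (fun _ => a) = a := by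
    intro i a
    have := hF i
    simp only [hG]
    rcases h0 : F i (fun _ => false) with _ | _ <;> rcases h1 : F i (fun _ => true) with _ | _
    · rw [h0, h1] at this
      exact absurd rfl this
    · cases a
      · rw [h0, h0]
      · rw [h1, h1]
    · cases a
      · rw [h0, h1]
      · rw [h1, h0]
    · rw [h0, h1] at this
      exact absurd rfl this
  have hGC : Closed G C := by
    intro x hx
    exact hC (fun _ => fun i => F i fun j => x j i) (fun _ => hC x hx)
  have ha : ∀ i, IsAffine (G i) ↔ IsAffine (F i) := by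
    intro i
    rcases hcase i with h | h
    · have : G i = F i := funext h
      rw [this]
    · have : G i = fun v => !(F i v) := funext h
      rw [this, affine_not]
  have hu : ∀ i, IsUnary (G i) ↔ IsUnary (F i) := by
    intro i
    rcases hcase i with h | h
    · have : G i = F i := funext h
      rw [this]
    · have : G i = fun v => !(F i v) := funext h
      rw [this, unary_not]
  have key := core hGC hid d hd hmin (Finset.univ.filter fun i => IsAffine (G i)) L U
    (fun i => by simp) (fun i => by rw [hU, hu]) (fun i => by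
      rw [hL, hU, Finset.mem_filter, ha]
      simp)
  have hNeq : (Finset.univ \ Finset.univ.filter fun i => IsAffine (G i)) = N := by
    ext i
    rw [hN, Finset.mem_sdiff, Finset.mem_filter, ha]
    simp
  rw [hNeq] at key
  exact key

/-- Words constant on blocks. -/
theorem blocks (f : (Fin s → Bool) → Bool) (n d : ℕ) (hd : 1 ≤ d) (hdn : d ≤ n) :
    ∃ C : Finset (Fin n → Bool), Closed (fun _ => f) C ∧ MinDist d C ∧ C.card = 2 ^ (n / d) := by
  have hk : 1 ≤ n / d := (Nat.one_le_div_iff (by omega)).2 hdn
  set k := n / d with hkdef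
  have hkd : k * d ≤ n := Nat.div_mul_le_self n d
  let β : Fin n → Fin k := fun i => ⟨min (i.1 / d) (k - 1), by omega⟩
  have hβ : ∀ b : Fin k, d ≤ (Finset.univ.filter fun i : Fin n => β i = b).card := by
    intro b
    have hb : (b.1 + 1) * d ≤ n := (Nat.mul_le_mul_right d b.2).trans hkd
    have : (Finset.univ : Finset (Fin d)).card ≤
        (Finset.univ.filter fun i : Fin n => β i = b).card := by
      refine Finset.card_le_card_of_injOn (fun j : Fin d => (⟨b.1 * d + j.1, by
        have := j.2
        calc b.1 * d + j.1 < b.1 * d + d := by omega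
          _ = (b.1 + 1) * d := by ring
          _ ≤ n := hb⟩ : Fin n)) ?_ ?_
      · intro j _
        refine Finset.mem_coe.2 (Finset.mem_filter.2 ⟨Finset.mem_univ _, ?_⟩)
        apply Fin.ext
        show min ((b.1 * d + j.1) / d) (k - 1) = b.1
        have h1 : (b.1 * d + j.1) / d = b.1 := by
          rw [mul_comm, Nat.mul_add_div (by omega), Nat.div_eq_of_lt j.2, add_zero]
        rw [h1]
        have := b.2
        omega
      · intro j _ j' _ h
        simp only [Fin.mk.injEq] at h
        exact Fin.ext (by omega)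
    simpa using this
  have hne : ∀ b : Fin k, ∃ i, β i = b := by
    intro b
    have h := hβ b
    have : 0 < (Finset.univ.filter fun i : Fin n => β i = b).card := by omega
    obtain ⟨i, hi⟩ := Finset.card_pos.1 this
    exact ⟨i, (Finset.mem_filter.1 hi).2⟩
  have hinj : Function.Injective (fun (w : Fin k → Bool) (i : Fin n) => w (β i)) := by
    intro w w' h
    funext b
    obtain ⟨i, rfl⟩ := hne b
    exact congrFun h i
  refine ⟨Finset.univ.image (fun (w : Fin k → Bool) (i : Fin n) => w (β i)), ?_, ?_, ?_⟩
  · intro x hx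
    have hx' : ∀ j, ∃ w : Fin k → Bool, (fun i => w (β i)) = x j := fun j => by
      simpa using Finset.mem_image.1 (hx j)
    choose w hw using hx'
    refine Finset.mem_image.2 ⟨fun b => f (fun j => w j b), Finset.mem_univ _, ?_⟩
    funext i
    dsimp only
    congr 1
    funext j
    exact congrFun (hw j) i
  · intro x hx y hy hxy
    obtain ⟨w, -, rfl⟩ := Finset.mem_image.1 hx
    obtain ⟨w', -, rfl⟩ := Finset.mem_image.1 hy
    have : w ≠ w' := fun h => hxy (by rw [h])
    obtain ⟨b, hb⟩ := Function.ne_iff.1 this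
    refine (hβ b).trans (Finset.card_le_card ?_)
    intro i hi
    rw [Finset.mem_filter] at hi ⊢
    refine ⟨hi.1, ?_⟩
    dsimp only
    rw [hi.2]
    exact hb
  · rw [Finset.card_image_of_injective _ hinj]
    simp

end Pool.Agent.U597.PC
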