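import Pool.Agent.U597.PC.Minor

set_option linter.unusedSectionVars false

namespace Pool.Agent.U597.PC

variable {ι : Type*} [Fintype ι] [DecidableEq ι] {s : ℕ}

/-- The word `x` restricted to `S` (0 outside). -/
def res (S : Finset ι) (x : ι → Bool) : ι → Bool := fun i => if i ∈ S then x i else false

theorem Bval {g : Bool → Bool → Bool} (h1 : ∀ a, g a a = a) (h : g false true = g true false)
    (a b : Bool) : g a b = g false true ↔ (a = g false true ∨ b = g false true) := by
  have e1 := h1 true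
  have e2 := h1 false
  revert h
  cases hu : g false true <;> cases hv : g true false <;> cases a <;> cases b <;>
    simp [hu, hv, e1, e2]

theorem bool_ne {a b c : Bool} (h1 : a ≠ c) (h2 : b ≠ c) : a = b := by
  cases a <;> cases b <;> cases c <;> simp at h1 h2 ⊢

/-- Maximal element with respect to the absorbing values. -/
theorem exMax (D : Finset (ι → Bool)) (hD : D.Nonempty) (A : Finset ι) (c : ι → Bool) :
    ∃ m ∈ D, ∀ w ∈ D, (∀ i ∈ A, m i = c i → w i = c i) → ∀ i ∈ A, w i = c i → m i = c i := by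
  obtain ⟨m, hm, hmax⟩ := Finset.exists_max_image D (fun x => (A.filter fun i => x i = c i).card) hD
  refine ⟨m, hm, fun w hw hsub => ?_⟩
  have h1 : (A.filter fun i => m i = c i) ⊆ (A.filter fun i => w i = c i) := by
    intro i hi
    rw [Finset.mem_filter] at hi ⊢
    exact ⟨hi.1, hsub i hi.1 hi.2⟩
  have h2 := Finset.eq_of_subset_of_card_le h1 (hmax w hw)
  intro i hi hwi
  have : i ∈ A.filter fun i => m i = c i := by
    rw [h2]
    exact Finset.mem_filter.2 ⟨hi, hwi⟩
  exact (Finset.mem_filter.1 this).2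

/-- Words in a fibre: semilattice coordinates. -/
theorem semi {B : ι → Bool → Bool → Bool} (hid : ∀ i a, B i a a = a) (A : Finset ι)
    (hA : ∀ i ∈ A, B i false true = B i true false) (d : ℕ) (hd : 1 ≤ d)
    (D : Finset (ι → Bool)) (hcl : ∀ x ∈ D, ∀ y ∈ D, (fun i => B i (x i) (y i)) ∈ D)
    (hmin : MinDist d D) (hag : ∀ x ∈ D, ∀ y ∈ D, ∀ i, i ∉ A → x i = y i) :
    D.card ≤ 2 ^ (A.card / d) := by
  refine peel (fun D => (∀ x ∈ D, ∀ y ∈ D, (fun i => B i (x i) (y i)) ∈ D) ∧
    (∀ x ∈ D, ∀ y ∈ D, ∀ i, i ∉ A → x i = y i)) ?_ ?_ d hd A.card A D rfl ⟨hcl, hag⟩ hmin hag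
  · rintro D ⟨hc, ha⟩ E v hv
    refine ⟨fun x hx y hy => ?_, fun x hx y hy =>
      ha x (Finset.mem_filter.1 hx).1 y (Finset.mem_filter.1 hy).1⟩
    rw [Finset.mem_filter] at hx hy ⊢
    refine ⟨hc x hx.1 y hy.1, fun i hi => ?_⟩
    dsimp only
    rw [hx.2 i hi, hy.2 i hi, hid]
  · rintro D ⟨hc, ha⟩ h2
    have hne : D.Nonempty := Finset.card_pos.1 (by omega)
    set c : ι → Bool := fun i => B i false true with hcdef
    have hval : ∀ i ∈ A, ∀ a b, B i a b = c i ↔ (a = c i ∨ b = c i) := fun i hi a b =>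
      Bval (hid i) (hA i hi) a b
    obtain ⟨m, hm, hmax⟩ := exMax D hne A c
    have hbot : ∀ x ∈ D, ∀ i ∈ A, x i = c i → m i = c i := by
      intro x hx i hi hxi
      exact hmax _ (hc m hm x hx) (fun j hj hmj => (hval j hj _ _).2 (Or.inl hmj)) i hi
        ((hval i hi _ _).2 (Or.inr hxi))
    have hne2 : (D.erase m).Nonempty := by
      rw [← Finset.card_pos, Finset.card_erase_of_mem hm]
      omega
    obtain ⟨a, ha', hamax⟩ := exMax (D.erase m) hne2 A c
    have haD := Finset.mem_of_mem_erase ha'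
    have ham : a ≠ m := Finset.ne_of_mem_erase ha'
    refine ⟨a, haD, m, hm, ham, fun x hx => ?_⟩
    have hE : ∀ i, a i ≠ m i → i ∈ A ∧ a i ≠ c i ∧ m i = c i := by
      intro i hi
      have hiA : i ∈ A := by
        by_contra h
        exact hi (ha a haD m hm i h)
      have h1 : a i ≠ c i := by
        intro h
        exact hi (h.trans (hbot a haD i hiA h).symm)
      refine ⟨hiA, h1, ?_⟩
      by_contra h3
      exact hi (bool_ne h1 h3)
    by_cases hw : (fun i => B i (a i) (x i)) = m
    · right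
      intro i hi
      obtain ⟨hiA, h1, h3⟩ := hE i hi
      have h4 : B i (a i) (x i) = c i := by
        have := congrFun hw i
        rw [this, h3]
      rcases (hval i hiA _ _).1 h4 with h | h
      · exact absurd h h1
      · rw [h, h3]
    · left
      intro i hi
      obtain ⟨hiA, h1, h3⟩ := hE i hi
      apply bool_ne _ h1
      intro hxi
      apply h1
      exact hamax _ (Finset.mem_erase.2 ⟨hw, hc a haD x hx⟩)
        (fun j hj haj => (hval j hj _ _).2 (Or.inl haj)) i hiA
        ((hval i hiA _ _).2 (Or.inr hxi))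

/-- Words in a fibre: majority coordinates. -/
theorem maj {M : ι → Bool → Bool → Bool → Bool} (hid : ∀ i a, M i a a a = a) (A : Finset ι)
    (hA : ∀ i ∈ A, M i = sd false false false) (d : ℕ) (hd : 1 ≤ d)
    (D : Finset (ι → Bool))
    (hcl : ∀ x ∈ D, ∀ y ∈ D, ∀ z ∈ D, (fun i => M i (x i) (y i) (z i)) ∈ D)
    (hmin : MinDist d D) (hag : ∀ x ∈ D, ∀ y ∈ D, ∀ i, i ∉ A → x i = y i) :
    D.card ≤ 2 ^ (A.card / d) := by
  have m1 : ∀ a b : Bool, sd false false false a a b = a := by decide
  have m2 : ∀ a b c : Bool, a ≠ b → sd false false false a b c = c := by decide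
  refine peel (fun D => (∀ x ∈ D, ∀ y ∈ D, ∀ z ∈ D, (fun i => M i (x i) (y i) (z i)) ∈ D) ∧
    (∀ x ∈ D, ∀ y ∈ D, ∀ i, i ∉ A → x i = y i)) ?_ ?_ d hd A.card A D rfl ⟨hcl, hag⟩ hmin hag
  · rintro D ⟨hc, ha⟩ E v hv
    refine ⟨fun x hx y hy z hz => ?_, fun x hx y hy =>
      ha x (Finset.mem_filter.1 hx).1 y (Finset.mem_filter.1 hy).1⟩
    rw [Finset.mem_filter] at hx hy hz ⊢
    refine ⟨hc x hx.1 y hy.1 z hz.1, fun i hi => ?_⟩
    dsimp only
    rw [hx.2 i hi, hy.2 i hi, hz.2 i hi, hid]
  · rintro D ⟨hc, ha⟩ h2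
    obtain ⟨x0, hx0, y0, hy0, hxy0⟩ := Finset.one_lt_card.1 h2
    have hne : ((D ×ˢ D).filter fun p => p.1 ≠ p.2).Nonempty :=
      ⟨(x0, y0), Finset.mem_filter.2 ⟨Finset.mem_product.2 ⟨hx0, hy0⟩, hxy0⟩⟩
    obtain ⟨⟨x, y⟩, hxy, hmn⟩ := Finset.exists_min_image _
      (fun p : (ι → Bool) × (ι → Bool) => (Finset.univ.filter fun i => p.1 i ≠ p.2 i).card) hne
    rw [Finset.mem_filter, Finset.mem_product] at hxy
    obtain ⟨⟨hx, hy⟩, hne'⟩ := hxy
    dsimp only at hx hy hne' hmn
    have hmn' : ∀ u ∈ D, ∀ v ∈ D, u ≠ v → (Finset.univ.filter fun i => x i ≠ y i).card ≤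
        (Finset.univ.filter fun i => u i ≠ v i).card := fun u hu v hv huv =>
      hmn (u, v) (Finset.mem_filter.2 ⟨Finset.mem_product.2 ⟨hu, hv⟩, huv⟩)
    refine ⟨x, hx, y, hy, hne', fun z hz => ?_⟩
    set w : ι → Bool := fun i => M i (x i) (y i) (z i) with hw
    have hwD : w ∈ D := hc x hx y hy z hz
    have hoff : ∀ i, x i = y i → w i = x i := by
      intro i hi
      by_cases hiA : i ∈ A
      · simp only [hw]
        rw [hA i hiA, hi, m1]
      · simp only [hw]
        rw [← hi, ha z hz x hx i hiA, hid]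
    have hon : ∀ i, x i ≠ y i → w i = z i := by
      intro i hi
      have hiA : i ∈ A := by
        by_contra h
        exact hi (ha x hx y hy i h)
      simp only [hw]
      rw [hA i hiA, m2 _ _ _ hi]
    by_cases h1 : w = x
    · left
      intro i hi
      rw [← hon i hi, h1]
    · by_cases h3 : w = y
      · right
        intro i hi
        rw [← hon i hi, h3]
      · exfalso
        have e1 := hmn' x hx w hwD (Ne.symm h1)
        have e2 := hmn' w hwD y hy h3
        have hdisj : Disjoint (Finset.univ.filter fun i => x i ≠ w i)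
            (Finset.univ.filter fun i => w i ≠ y i) := by
          rw [Finset.disjoint_left]
          intro i hi hi'
          rw [Finset.mem_filter] at hi hi'
          have a1 : x i ≠ y i := fun h => hi.2 (hoff i h).symm
          exact a1 (bool_ne hi.2 (Ne.symm hi'.2))
        have hsub : (Finset.univ.filter fun i => x i ≠ w i) ∪
            (Finset.univ.filter fun i => w i ≠ y i) ⊆
            Finset.univ.filter fun i => x i ≠ y i := by
          intro i hi
          rw [Finset.mem_filter]
          refine ⟨Finset.mem_univ i, fun h => ?_⟩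
          have := hoff i h
          rcases Finset.mem_union.1 hi with hi | hi
          · exact (Finset.mem_filter.1 hi).2 this.symm
          · exact (Finset.mem_filter.1 hi).2 (this.trans h)
        have e3 := Finset.card_le_card hsub
        rw [Finset.card_union_of_disjoint hdisj] at e3
        have e4 : 0 < (Finset.univ.filter fun i => x i ≠ y i).card := by
          rw [Finset.card_pos]
          obtain ⟨i, hi⟩ := Function.ne_iff.1 hne'
          exact ⟨i, Finset.mem_filter.2 ⟨Finset.mem_univ i, hi⟩⟩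
        omega

end Pool.Agent.U597.PC
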