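import Pool.Agent.U597.PC.Core

namespace Pool.Agent.U597.PC

variable {ι : Type*} [Fintype ι] [DecidableEq ι]

structure Mem2 (C : Finset (ι → Bool)) (J : Finset ι) (B : ι → Bool → Bool → Bool) : Prop where
  idem : ∀ i a, B i a a = a
  cl : ∀ x ∈ C, ∀ y ∈ C, (fun i => B i (x i) (y i)) ∈ C
  aff : ∀ i ∈ J, B i false true ≠ B i true false

structure Mem3 (C : Finset (ι → Bool)) (J U : Finset ι)
    (T : ι → Bool → Bool → Bool → Bool) : Prop where
  idem : ∀ i a, T i a a a = a
  cl : ∀ x ∈ C, ∀ y ∈ C, ∀ z ∈ C, (fun i => T i (x i) (y i) (z i)) ∈ C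
  aff : ∀ i ∈ J, ∃ p q r, odd p q r = true ∧ (i ∈ U → nice p q r = true) ∧ T i = sd p q r

theorem Mem2.first (C : Finset (ι → Bool)) (J : Finset ι) : Mem2 C J (fun _ a _ => a) :=
  ⟨fun _ _ => rfl, fun _ hx _ _ => hx, fun _ _ => by decide⟩

theorem Mem2.comb {C : Finset (ι → Bool)} {J : Finset ι} {B1 B2 : ι → Bool → Bool → Bool}
    (h1 : Mem2 C J B1) (h2 : Mem2 C J B2) :
    Mem2 C J (fun i a b => B1 i (B2 i a b) (B2 i b a)) := by
  refine ⟨fun i a => ?_, fun x hx y hy => ?_, fun i hi => ?_⟩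
  · rw [h2.idem, h1.idem]
  · exact h1.cl _ (h2.cl x hx y hy) _ (h2.cl y hy x hx)
  · have e1 := h1.aff i hi
    have e2 := h2.aff i hi
    revert e1 e2
    cases hu : B2 i false true <;> cases hv : B2 i true false <;>
      cases hw : B1 i false true <;> cases hz : B1 i true false <;> simp [hw, hz]

theorem comb2_good {g h : Bool → Bool → Bool} (hg : ∀ a, g a a = a)
    (hgh : g false true = g true false ∨ h false true = h true false) :
    g (h false true) (h true false) = g (h true false) (h false true) := by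
  rcases hgh with e | e
  · cases hu : h false true <;> cases hv : h true false <;> simp [e]
  · rw [e]

theorem Mem2.norm {C : Finset (ι → Bool)} {J : Finset ι} {B : ι → Bool → Bool → Bool}
    (h : Mem2 C J B) : Mem2 C J (fun i a b => B i (B i a b) a) := by
  refine ⟨fun i a => ?_, fun x hx y hy => ?_, fun i hi => ?_⟩
  · rw [h.idem, h.idem]
  · exact h.cl _ (h.cl x hx y hy) _ hx
  · have e1 := h.aff i hi
    have e2 := h.idem i true
    have e3 := h.idem i false
    revert e1
    cases hu : B i false true <;> cases hv : B i true false <;> simp [hu, hv, e2, e3]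

theorem exB (C : Finset (ι → Bool)) (J : Finset ι) :
    ∃ B, Mem2 C J B ∧
      (∀ i, (∃ B', Mem2 C J B' ∧ B' i false true = B' i true false) →
        B i false true = B i true false) ∧
      (∀ i, B i false true ≠ B i true false → ∀ a b, B i a b = a) := by
  have key : ∀ T : Finset ι, ∃ B, Mem2 C J B ∧
      (∀ i ∈ T, (∃ B', Mem2 C J B' ∧ B' i false true = B' i true false) →
        B i false true = B i true false) := by
    intro T
    induction T using Finset.induction_on with
    | empty => exact ⟨_, Mem2.first C J, by simp⟩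
    | insert j T hj ih =>
      obtain ⟨B, hB, hT⟩ := ih
      by_cases hex : ∃ B', Mem2 C J B' ∧ B' j false true = B' j true false
      · obtain ⟨B', hB', hj'⟩ := hex
        refine ⟨_, hB.comb hB', ?_⟩
        intro i hi hi'
        rcases Finset.mem_insert.1 hi with rfl | hiT
        · exact comb2_good (hB.idem i) (Or.inr hj')
        · exact comb2_good (hB.idem i) (Or.inl (hT i hiT hi'))
      · refine ⟨B, hB, ?_⟩
        intro i hi hi'
        rcases Finset.mem_insert.1 hi with rfl | hiT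
        · exact absurd hi' hex
        · exact hT i hiT hi'
  obtain ⟨B, hB, hT⟩ := key Finset.univ
  refine ⟨_, hB.norm, ?_, ?_⟩
  · intro i hi
    have e := hT i (Finset.mem_univ i) hi
    have e2 := hB.idem i true
    have e3 := hB.idem i false
    revert e
    cases hu : B i false true <;> cases hv : B i true false <;> simp [hu, hv, e2, e3]
  · intro i hi a b
    have e2 := hB.idem i true
    have e3 := hB.idem i false
    revert hi
    cases hu : B i false true <;> cases hv : B i true false <;> cases a <;> cases b <;>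
      simp [hu, hv, e2, e3]

theorem Mem3.comb {C : Finset (ι → Bool)} {J U : Finset ι}
    {M N : ι → Bool → Bool → Bool → Bool}
    (h1 : Mem3 C J U M) (h2 : Mem3 C J U N) :
    Mem3 C J U (fun i => PC.comb (M i) (N i)) := by
  refine ⟨fun i a => ?_, fun x hx y hy z hz => ?_, fun i hi => ?_⟩
  · simp only [PC.comb]
    rw [h2.idem, h1.idem]
  · exact h1.cl _ (h2.cl x hx y hy z hz) _ (h2.cl y hy z hz x hx) _ (h2.cl z hz x hx y hy)
  · obtain ⟨p, q, r, ho, hn, hM⟩ := h1.aff i hi
    obtain ⟨p', q', r', ho', hn', hN⟩ := h2.aff i hi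
    obtain ⟨p'', q'', r'', h3, h4, -, h5⟩ := comb_odd p q r p' q' r' ho ho'
    refine ⟨p'', q'', r'', h3, fun hU => h4 ⟨ho, hn hU, hn' hU⟩, ?_⟩
    funext a b c
    simp only [PC.comb, hM, hN]
    exact h5 a b c

theorem Mem3.norm {C : Finset (ι → Bool)} {J U : Finset ι}
    {M : ι → Bool → Bool → Bool → Bool} (h1 : Mem3 C J U M) :
    Mem3 C J U (fun i => n3 (n2 (n1 (M i)))) := by
  have a1 : (∀ i a, n1 (M i) a a a = a) ∧ (∀ x ∈ C, ∀ y ∈ C, ∀ z ∈ C,
      (fun i => n1 (M i) (x i) (y i) (z i)) ∈ C) :=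
    ⟨fun i a => by simp only [n1, h1.idem], fun x hx y hy z hz =>
      h1.cl _ (h1.cl x hx y hy z hz) _ hy _ hz⟩
  have a2 : (∀ i a, n2 (n1 (M i)) a a a = a) ∧ (∀ x ∈ C, ∀ y ∈ C, ∀ z ∈ C,
      (fun i => n2 (n1 (M i)) (x i) (y i) (z i)) ∈ C) :=
    ⟨fun i a => by simp only [n2, a1.1], fun x hx y hy z hz =>
      a1.2 _ hx _ hy _ (a1.2 x hx y hy z hz)⟩
  have a3 : (∀ i a, n3 (n2 (n1 (M i))) a a a = a) ∧ (∀ x ∈ C, ∀ y ∈ C, ∀ z ∈ C,
      (fun i => n3 (n2 (n1 (M i))) (x i) (y i) (z i)) ∈ C) :=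
    ⟨fun i a => by rw [n3, a2.1, a2.1], fun x hx y hy z hz =>
      a2.2 _ hx _ (a2.2 x hx y hy z hz) _ hz⟩
  refine ⟨a3.1, a3.2, fun i hi => ?_⟩
  obtain ⟨p, q, r, ho, hn, hM⟩ := h1.aff i hi
  obtain ⟨p', q', r', h3, -, h4, h5⟩ := norm_code p q r
  exact ⟨p', q', r', h4 ho, fun _ => h3, by
    funext a b c
    rw [hM]
    exact h5 a b c⟩

theorem Mem3.fin {C : Finset (ι → Bool)} {J U : Finset ι}
    {M : ι → Bool → Bool → Bool → Bool} (h1 : Mem3 C J U M) :
    Mem3 C J U (fun i => fin3 (M i)) := by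
  refine ⟨fun i a => by simp only [fin3, h1.idem], fun x hx y hy z hz =>
    h1.cl _ (h1.cl x hx y hy z hz) _ (h1.cl z hz x hx y hy) _ (h1.cl y hy z hz x hx),
    fun i hi => ?_⟩
  obtain ⟨p, q, r, ho, hn, hM⟩ := h1.aff i hi
  obtain ⟨-, -, -, h4⟩ := fin_code p q r
  obtain ⟨p', q', r', h5, h6, h7⟩ := h4 ho
  exact ⟨p', q', r', h5, fun hU => h6 (hn hU), by
    funext a b c
    rw [hM]
    exact h7 a b c⟩

theorem Mem3.first (C : Finset (ι → Bool)) (J U : Finset ι) :
    Mem3 C J U (fun _ => sd true false false) := by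
  have e : ∀ a b c, sd true false false a b c = a := by decide
  refine ⟨fun i a => e a a a, fun x hx y hy z hz => ?_, fun i hi =>
    ⟨true, false, false, rfl, fun _ => rfl, rfl⟩⟩
  have : (fun i => sd true false false (x i) (y i) (z i)) = x := by
    funext i
    exact e _ _ _
  rw [this]
  exact hx

/-- The majority member. -/
theorem exM (C : Finset (ι → Bool)) (J U : Finset ι) (K : Finset ι)
    (hsd : ∀ T, Mem3 C J U T → ∀ i ∈ K, ∃ p q r, T i = sd p q r)
    (hex : ∀ i ∈ K, ∃ T, Mem3 C J U T ∧ ∃ p q r, odd p q r = false ∧ T i = sd p q r) :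
    ∃ M, Mem3 C J U M ∧ (∀ i ∈ K, M i = sd false false false) ∧
      (∀ i ∈ J, M i = sd true false false) := by
  have key : ∀ S : Finset ι, S ⊆ K → ∃ M, Mem3 C J U M ∧
      (∀ i, i ∈ J ∪ K → ∃ p q r, nice p q r = true ∧ M i = sd p q r) ∧
      (∀ i ∈ S, M i = sd false false false) := by
    intro S
    induction S using Finset.induction_on with
    | empty =>
      intro _
      refine ⟨_, (Mem3.first C J U), ?_, by simp⟩
      intro i _
      exact ⟨true, false, false, rfl, rfl⟩
    | insert j S hj ih =>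
      intro hS
      obtain ⟨M, hM, hn, hS'⟩ := ih (fun i hi => hS (Finset.mem_insert_of_mem hi))
      obtain ⟨T, hT, p, q, r, ho, hTj⟩ := hex j (hS (Finset.mem_insert_self j S))
      have hN := hT.norm
      have hNn : ∀ i, i ∈ J ∪ K → ∃ p q r, nice p q r = true ∧
          n3 (n2 (n1 (T i))) = sd p q r := by
        intro i hi
        have : ∃ p q r, T i = sd p q r := by
          rcases Finset.mem_union.1 hi with h | h
          · obtain ⟨p, q, r, -, -, h'⟩ := hT.aff i h
            exact ⟨p, q, r, h'⟩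
          · exact hsd T hT i h
        obtain ⟨p1, q1, r1, e⟩ := this
        obtain ⟨p', q', r', h3, -, -, h5⟩ := norm_code p1 q1 r1
        exact ⟨p', q', r', h3, by
          funext a b c
          rw [e]
          exact h5 a b c⟩
      have hNj : n3 (n2 (n1 (T j))) = sd false false false := by
        obtain ⟨p', q', r', -, h4, -, h5⟩ := norm_code p q r
        obtain ⟨rfl, rfl, rfl⟩ := h4 ho
        funext a b c
        rw [hTj]
        exact h5 a b c
      refine ⟨_, hM.comb hN, ?_, ?_⟩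
      · intro i hi
        obtain ⟨p1, q1, r1, h1, e1⟩ := hn i hi
        obtain ⟨p2, q2, r2, h2, e2⟩ := hNn i hi
        obtain ⟨p3, q3, r3, h3, -, e3⟩ := comb_nice p1 q1 r1 p2 q2 r2 h1 h2
        exact ⟨p3, q3, r3, h3, by
          funext a b c
          simp only [PC.comb, e1, e2]
          exact e3 a b c⟩
      · intro i hi
        have hiK : i ∈ J ∪ K := Finset.mem_union_right _ (hS hi)
        obtain ⟨p1, q1, r1, h1, e1⟩ := hn i hiK
        obtain ⟨p2, q2, r2, h2, e2⟩ := hNn i hiK
        rcases Finset.mem_insert.1 hi with rfl | hiS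
        · obtain ⟨p3, q3, r3, h3, h4, e3⟩ := comb_nice p1 q1 r1 false false false h1 rfl
          obtain ⟨rfl, rfl, rfl⟩ := h4 (Or.inr ⟨rfl, rfl, rfl⟩)
          funext a b c
          simp only [PC.comb, e1, hNj]
          exact e3 a b c
        · obtain ⟨p3, q3, r3, h3, h4, e3⟩ := comb_nice false false false p2 q2 r2 rfl h2
          obtain ⟨rfl, rfl, rfl⟩ := h4 (Or.inl ⟨rfl, rfl, rfl⟩)
          funext a b c
          simp only [PC.comb, hS' i hiS, e2]
          exact e3 a b c
  obtain ⟨M, hM, hn, hK⟩ := key K (le_refl K)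
  refine ⟨_, hM.fin, ?_, ?_⟩
  · intro i hi
    obtain ⟨h0, -, -, -⟩ := fin_code false false false
    funext a b c
    rw [hK i hi]
    exact h0 ⟨rfl, rfl, rfl⟩ a b c
  · intro i hi
    obtain ⟨p, q, r, h1, e1⟩ := hn i (Finset.mem_union_left _ hi)
    obtain ⟨p', q', r', h2, -, e2⟩ := hM.aff i hi
    have h3 : odd p q r = true := by
      have e : sd p q r = sd p' q' r' := e1.symm.trans e2
      have f1 := congrFun (congrFun (congrFun e true) false) false
      have f2 := congrFun (congrFun (congrFun e false) true) false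
      have f3 := congrFun (congrFun (congrFun e false) false) true
      simp [sd] at f1 f2 f3
      rw [f1, f2, f3]
      exact h2
    obtain ⟨-, -, h4, -⟩ := fin_code p q r
    funext a b c
    rw [e1]
    exact h4 ⟨h3, h1⟩ a b c

/-- The minority member. -/
theorem exP (C : Finset (ι → Bool)) (J U : Finset ι) (hUJ : U ⊆ J)
    (hex : ∀ i ∈ J, i ∉ U → ∃ T, Mem3 C J U T ∧ T i = sd true true true) :
    ∃ M, Mem3 C J U M ∧ (∀ i ∈ J, i ∉ U → M i = sd true true true) ∧
      (∀ i ∈ U, M i = sd true false false) := by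
  have key : ∀ S : Finset ι, S ⊆ J → (∀ i ∈ S, i ∉ U) → ∃ M, Mem3 C J U M ∧
      (∀ i ∈ S, M i = sd true true true) := by
    intro S
    induction S using Finset.induction_on with
    | empty =>
      intro _ _
      exact ⟨_, (Mem3.first C J U), by simp⟩
    | insert j S hj ih =>
      intro hS hSU
      obtain ⟨M, hM, hS'⟩ := ih (fun i hi => hS (Finset.mem_insert_of_mem hi))
        (fun i hi => hSU i (Finset.mem_insert_of_mem hi))
      obtain ⟨T, hT, hTj⟩ := hex j (hS (Finset.mem_insert_self j S))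
        (hSU j (Finset.mem_insert_self j S))
      refine ⟨_, hM.comb hT, ?_⟩
      intro i hi
      obtain ⟨p1, q1, r1, h1, -, e1⟩ := hM.aff i (hS hi)
      obtain ⟨p2, q2, r2, h2, -, e2⟩ := hT.aff i (hS hi)
      rcases Finset.mem_insert.1 hi with rfl | hiS
      · obtain ⟨p3, q3, r3, h3, -, h4, e3⟩ := comb_odd p1 q1 r1 true true true h1 rfl
        obtain ⟨rfl, rfl, rfl⟩ := h4 (Or.inr ⟨rfl, rfl, rfl⟩)
        funext a b c
        simp only [PC.comb, e1, hTj]
        exact e3 a b c
      · obtain ⟨p3, q3, r3, h3, -, h4, e3⟩ := comb_odd true true true p2 q2 r2 rfl h2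
        obtain ⟨rfl, rfl, rfl⟩ := h4 (Or.inl ⟨rfl, rfl, rfl⟩)
        funext a b c
        simp only [PC.comb, hS' i hiS, e2]
        exact e3 a b c
  obtain ⟨M, hM, hK⟩ := key (J \ U) Finset.sdiff_subset (fun i hi => (Finset.mem_sdiff.1 hi).2)
  refine ⟨_, hM.fin, ?_, ?_⟩
  · intro i hi hiU
    obtain ⟨-, h0, -, -⟩ := fin_code true true true
    funext a b c
    rw [hK i (Finset.mem_sdiff.2 ⟨hi, hiU⟩)]
    exact h0 ⟨rfl, rfl, rfl⟩ a b c
  · intro i hi
    obtain ⟨p', q', r', h2, h3, e2⟩ := hM.aff i (hUJ hi)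
    obtain ⟨-, -, h4, -⟩ := fin_code p' q' r'
    funext a b c
    rw [e2]
    exact h4 ⟨h2, h3 hi⟩ a b c

end Pool.Agent.U597.PC
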