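import Pool.Agent.U597.PC.Mem

set_option linter.unusedSectionVars false

namespace Pool.Agent.U597.PC

variable {ι : Type*} [Fintype ι] [DecidableEq ι]

/-- `f` is a sum mod 2 of some of its variables and a constant. -/
def IsAffine {s : ℕ} (f : (Fin s → Bool) → Bool) : Prop :=
  ∀ x y z : Fin s → Bool, f (fun j => xor (x j) (xor (y j) (z j))) = xor (f x) (xor (f y) (f z))

/-- `f` depends on one of its variables only. -/
def IsUnary {s : ℕ} (f : (Fin s → Bool) → Bool) : Prop :=
  ∃ j, ∀ x y : Fin s → Bool, x j = y j → f x = f y

/-- `C` is closed under the operation acting as `F i` on the coordinate `i`. -/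
def Closed {s : ℕ} (F : ι → (Fin s → Bool) → Bool) (C : Finset (ι → Bool)) : Prop :=
  ∀ x : Fin s → ι → Bool, (∀ j, x j ∈ C) → (fun i => F i fun j => x j i) ∈ C

variable {s : ℕ}

theorem aff_zero_one {f : (Fin s → Bool) → Bool} (hf : IsAffine f)
    (hid : ∀ a, f (fun _ => a) = a) (v : Fin s → Bool) : f (fun j => !(v j)) = !(f v) := by
  have := hf v (fun _ => true) (fun _ => false)
  rw [hid, hid] at this
  simpa using this

theorem aff_add {f : (Fin s → Bool) → Bool} (hf : IsAffine f)
    (hid : ∀ a, f (fun _ => a) = a) (x y : Fin s → Bool) :
    f (fun j => xor (x j) (y j)) = xor (f x) (f y) := by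
  have := hf x y (fun _ => false)
  rw [hid] at this
  simpa using this

/-- binary minor -/
def bm (G : ι → (Fin s → Bool) → Bool) (v : Fin s → Bool) (i : ι) (a b : Bool) : Bool :=
  G i (fun j => if v j then b else a)

def pick (k : Fin 3) (a b c : Bool) : Bool := if k = 0 then a else if k = 1 then b else c

/-- ternary minor -/
def tm (G : ι → (Fin s → Bool) → Bool) (π : Fin s → Fin 3) (i : ι) (a b c : Bool) : Bool :=
  G i (fun j => pick (π j) a b c)

theorem bm01 (G : ι → (Fin s → Bool) → Bool) (v : Fin s → Bool) (i : ι) :
    bm G v i false true = G i v := by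
  unfold bm
  congr 1
  funext j
  cases v j <;> simp

theorem bm10 (G : ι → (Fin s → Bool) → Bool) (v : Fin s → Bool) (i : ι) :
    bm G v i true false = G i (fun j => !(v j)) := by
  unfold bm
  congr 1
  funext j
  cases v j <;> simp

theorem mem_bm {G : ι → (Fin s → Bool) → Bool} {C : Finset (ι → Bool)} (hG : Closed G C)
    (hid : ∀ i a, G i (fun _ => a) = a) {J : Finset ι} (hJ : ∀ i ∈ J, IsAffine (G i))
    (v : Fin s → Bool) : Mem2 C J (bm G v) := by
  refine ⟨fun i a => ?_, fun x hx y hy => ?_, fun i hi => ?_⟩
  · unfold bm
    simp [hid]
  · have := hG (fun j => if v j then y else x) (fun j => by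
      by_cases h : v j = true
      · simp [h, hy]
      · simp [h, hx])
    convert this using 1
    funext i
    unfold bm
    congr 1
    funext j
    cases v j <;> simp
  · rw [bm01, bm10, aff_zero_one (hJ i hi) (hid i)]
    cases G i v <;> simp

theorem tm_sd {G : ι → (Fin s → Bool) → Bool} {i : ι} (hid : ∀ a, G i (fun _ => a) = a)
    (hsd : ∀ v, G i (fun j => !(v j)) = !(G i v)) (π : Fin s → Fin 3) :
    tm G π i = sd (tm G π i true false false) (tm G π i false true false)
      (tm G π i false false true) := by
  refine sd_of _ (fun a => ?_) (fun a b c => ?_)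
  · unfold tm pick
    simp [hid]
  · unfold tm
    rw [← hsd]
    congr 1
    funext j
    unfold pick
    split_ifs <;> rfl

theorem tm_odd {G : ι → (Fin s → Bool) → Bool} {i : ι} (hid : ∀ a, G i (fun _ => a) = a)
    (hf : IsAffine (G i)) (π : Fin s → Fin 3) :
    odd (tm G π i true false false) (tm G π i false true false)
      (tm G π i false false true) = true := by
  unfold odd tm
  rw [← hf]
  have : (fun j => xor (pick (π j) true false false)
      (xor (pick (π j) false true false) (pick (π j) false false true))) =
      fun _ => true := by
    funext j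
    unfold pick
    split_ifs <;> simp
  rw [this, hid]

theorem unary_eq {f : (Fin s → Bool) → Bool} (hid : ∀ a, f (fun _ => a) = a)
    (hU : IsUnary f) : ∃ j, ∀ x, f x = x j := by
  obtain ⟨j, hj⟩ := hU
  exact ⟨j, fun x => by rw [hj x (fun _ => x j) rfl, hid]⟩

theorem unary_affine {f : (Fin s → Bool) → Bool} (hid : ∀ a, f (fun _ => a) = a)
    (hU : IsUnary f) : IsAffine f := by
  obtain ⟨j, hj⟩ := unary_eq hid hU
  intro x y z
  simp only [hj]

theorem mem_tm {G : ι → (Fin s → Bool) → Bool} {C : Finset (ι → Bool)} (hG : Closed G C)
    (hid : ∀ i a, G i (fun _ => a) = a) {J U : Finset ι} (hJ : ∀ i ∈ J, IsAffine (G i))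
    (hU : ∀ i ∈ U, IsUnary (G i)) (π : Fin s → Fin 3) : Mem3 C J U (tm G π) := by
  refine ⟨fun i a => ?_, fun x hx y hy z hz => ?_, fun i hi => ?_⟩
  · unfold tm pick
    simp [hid]
  · have := hG (fun j => if π j = 0 then x else if π j = 1 then y else z) (fun j => by
      split_ifs
      · exact hx
      · exact hy
      · exact hz)
    convert this using 1
    funext i
    unfold tm pick
    congr 1
    funext j
    split_ifs <;> rfl
  · refine ⟨_, _, _, tm_odd (hid i) (hJ i hi) π, fun hiU => ?_,
      tm_sd (hid i) (aff_zero_one (hJ i hi) (hid i)) π⟩
    obtain ⟨j, hj⟩ := unary_eq (hid i) (hU i hiU)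
    unfold tm
    simp only [hj]
    unfold pick nice
    split_ifs <;> simp

theorem not_affine {G : ι → (Fin s → Bool) → Bool} {i : ι}
    (hf : ¬ IsAffine (G i)) (hb : ∀ v, G i (fun j => !(v j)) ≠ G i v) :
    ∃ π : Fin s → Fin 3, odd (tm G π i true false false) (tm G π i false true false)
      (tm G π i false false true) = false := by
  by_contra hcon
  push Not at hcon
  apply hf
  have hsd : ∀ v, G i (fun j => !(v j)) = !(G i v) := by
    intro v
    have := hb v
    revert this
    cases G i (fun j => !(v j)) <;> cases G i v <;> simp
  have hdis : ∀ x y : Fin s → Bool, (∀ j, ¬ (x j = true ∧ y j = true)) →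
      G i (fun j => x j || y j) = xor (G i x) (G i y) := by
    intro x y hxy
    have h := hcon (fun j => if x j then 0 else if y j then 1 else 2)
    have h' : odd (tm G (fun j => if x j then 0 else if y j then 1 else 2) i true false false)
        (tm G (fun j => if x j then 0 else if y j then 1 else 2) i false true false)
        (tm G (fun j => if x j then 0 else if y j then 1 else 2) i false false true) = true := by
      revert h
      cases odd (tm G (fun j => if x j then 0 else if y j then 1 else 2) i true false false)
        (tm G (fun j => if x j then 0 else if y j then 1 else 2) i false true false)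
        (tm G (fun j => if x j then 0 else if y j then 1 else 2) i false false true) <;> simp
    have e1 : tm G (fun j => if x j then 0 else if y j then 1 else 2) i true false false =
        G i x := by
      unfold tm pick
      congr 1
      funext j
      have := hxy j
      cases hx' : x j <;> cases hy' : y j <;> simp [hx', hy'] at this ⊢
    have e2 : tm G (fun j => if x j then 0 else if y j then 1 else 2) i false true false =
        G i y := by
      unfold tm pick
      congr 1
      funext j
      have := hxy j
      cases hx' : x j <;> cases hy' : y j <;> simp [hx', hy'] at this ⊢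
    have e3 : tm G (fun j => if x j then 0 else if y j then 1 else 2) i false false true =
        !(G i (fun j => x j || y j)) := by
      rw [← hsd]
      unfold tm pick
      congr 1
      funext j
      have := hxy j
      cases hx' : x j <;> cases hy' : y j <;> simp [hx', hy'] at this ⊢
    rw [e1, e2, e3] at h'
    revert h'
    unfold odd
    cases G i x <;> cases G i y <;> cases G i (fun j => x j || y j) <;> simp
  have hadd : ∀ x y : Fin s → Bool, G i (fun j => xor (x j) (y j)) = xor (G i x) (G i y) := by
    intro x y
    have a1 := hdis (fun j => x j && !(y j)) (fun j => !(x j) && y j) (fun j => by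
      cases x j <;> cases y j <;> simp)
    have a2 := hdis (fun j => x j && y j) (fun j => x j && !(y j)) (fun j => by
      cases x j <;> cases y j <;> simp)
    have a3 := hdis (fun j => x j && y j) (fun j => !(x j) && y j) (fun j => by
      cases x j <;> cases y j <;> simp)
    have b1 : (fun j => (x j && !(y j)) || (!(x j) && y j)) = fun j => xor (x j) (y j) := by
      funext j
      cases x j <;> cases y j <;> simp
    have b2 : (fun j => (x j && y j) || (x j && !(y j))) = x := by
      funext j
      cases x j <;> cases y j <;> simp
    have b3 : (fun j => (x j && y j) || (!(x j) && y j)) = y := by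
      funext j
      cases x j <;> cases y j <;> simp
    rw [b1] at a1
    rw [b2] at a2
    rw [b3] at a3
    rw [a1, a2, a3]
    cases G i (fun j => x j && y j) <;> cases G i (fun j => x j && !(y j)) <;>
      cases G i (fun j => !(x j) && y j) <;> simp
  intro x y z
  rw [hadd x (fun j => xor (y j) (z j)), hadd y z]

theorem supp {f : (Fin s → Bool) → Bool} (hf : IsAffine f) (hid : ∀ a, f (fun _ => a) = a) :
    ∀ K : Finset (Fin s), (∀ k ∈ K, f (fun j => decide (j = k)) = false) →
      ∀ x : Fin s → Bool, (∀ k, k ∉ K → x k = false) → f x = false := by
  intro K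
  induction K using Finset.induction_on with
  | empty =>
    intro _ x hx
    have : x = fun _ => false := by
      funext k
      exact hx k (by simp)
    rw [this, hid]
  | insert k K hk ih =>
    intro hK x hx
    have ih' := ih (fun j hj => hK j (Finset.mem_insert_of_mem hj))
    by_cases hxk : x k = true
    · have h1 : f (fun j => xor (x j) (decide (j = k))) = false := by
        apply ih'
        intro j hj
        by_cases hjk : j = k
        · subst hjk
          simp [hxk]
        · have := hx j (by simp [hjk, hj])
          simp [this, hjk]
      rw [aff_add hf hid, hK k (Finset.mem_insert_self k K)] at h1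
      simpa using h1
    · apply ih'
      intro j hj
      by_cases hjk : j = k
      · subst hjk
        simpa using hxk
      · exact hx j (by simp [hjk, hj])

theorem affine_not_unary {G : ι → (Fin s → Bool) → Bool} {i : ι}
    (hid : ∀ a, G i (fun _ => a) = a) (hf : IsAffine (G i)) (hU : ¬ IsUnary (G i)) :
    ∃ π : Fin s → Fin 3, tm G π i = sd true true true := by
  have h1 : ∃ j0, G i (fun j => decide (j = j0)) = true := by
    by_contra hcon
    push Not at hcon
    have := supp hf hid Finset.univ (fun k _ => by simpa using hcon k) (fun _ => true)
      (fun k hk => absurd (Finset.mem_univ k) hk)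
    rw [hid] at this
    exact absurd this (by decide)
  obtain ⟨j0, hj0⟩ := h1
  have h2 : ∃ k0, k0 ≠ j0 ∧ G i (fun j => decide (j = k0)) = true := by
    by_contra hcon
    push Not at hcon
    apply hU
    refine ⟨j0, fun x y hxy => ?_⟩
    have := supp hf hid (Finset.univ.erase j0) (fun k hk => by
      simpa using hcon k (Finset.ne_of_mem_erase hk)) (fun j => xor (x j) (y j))
      (fun k hk => by
        have : k = j0 := by
          by_contra hne
          exact hk (Finset.mem_erase.2 ⟨hne, Finset.mem_univ k⟩)
        subst this
        simp [hxy])
    rw [aff_add hf hid] at this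
    revert this
    cases G i x <;> cases G i y <;> simp
  obtain ⟨k0, hk0, hk⟩ := h2
  refine ⟨fun j => if j = j0 then 0 else if j = k0 then 1 else 2, ?_⟩
  have hs := tm_sd hid (aff_zero_one hf hid) (fun j => if j = j0 then 0 else if j = k0 then 1 else 2)
  have ho := tm_odd hid hf (fun j => if j = j0 then 0 else if j = k0 then 1 else 2)
  have e1 : tm G (fun j => if j = j0 then 0 else if j = k0 then 1 else 2) i true false false =
      true := by
    refine Eq.trans ?_ hj0
    unfold tm pick
    congr 1
    funext j
    by_cases a : j = j0
    · simp [a]
    · by_cases b : j = k0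
      · simp [b, hk0]
      · simp [a, b]
  have e2 : tm G (fun j => if j = j0 then 0 else if j = k0 then 1 else 2) i false true false =
      true := by
    refine Eq.trans ?_ hk
    unfold tm pick
    congr 1
    funext j
    by_cases a : j = j0
    · subst a
      simp [Ne.symm hk0]
    · by_cases b : j = k0
      · simp [b, hk0]
      · simp [a, b]
  rw [e1, e2] at ho hs
  have e3 : tm G (fun j => if j = j0 then 0 else if j = k0 then 1 else 2) i false false true =
      true := by
    revert ho
    unfold odd
    cases tm G (fun j => if j = j0 then 0 else if j = k0 then 1 else 2) i false false true <;>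
      simp
  rw [e3] at hs
  exact hs

end Pool.Agent.U597.PC
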