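import Pool.Agent.U597.PC.Robust2

set_option autoImplicit false

namespace Pool.Agent.U597.PC

open Filter Topology

/-- The largest number of words of a code of length `n` and minimum distance at least `d` in the
class `P` (0 if there is none). -/
noncomputable def maxSize (P : (n : ℕ) → Finset (Fin n → Bool) → Prop) (n d : ℕ) : ℕ :=
  sSup {k : ℕ | ∃ C : Finset (Fin n → Bool), P n C ∧ MinDist d C ∧ C.card = k}

variable {P : (n : ℕ) → Finset (Fin n → Bool) → Prop}

theorem maxSize_le {n d B : ℕ} (h : ∀ C : Finset (Fin n → Bool), P n C → MinDist d C →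
    C.card ≤ B) : maxSize P n d ≤ B := by
  unfold maxSize
  rcases Set.eq_empty_or_nonempty
    {k : ℕ | ∃ C : Finset (Fin n → Bool), P n C ∧ MinDist d C ∧ C.card = k} with he | hne
  · rw [he]; simp
  · apply csSup_le hne
    rintro k ⟨C, h1, h2, rfl⟩
    exact h C h1 h2

theorem le_maxSize {n d : ℕ} (C : Finset (Fin n → Bool)) (h1 : P n C) (h2 : MinDist d C) :
    C.card ≤ maxSize P n d := by
  unfold maxSize
  apply le_csSup
  · refine ⟨Fintype.card (Fin n → Bool), ?_⟩
    rintro k ⟨D, -, -, rfl⟩
    exact Finset.card_le_univ D
  · exact ⟨C, h1, h2, rfl⟩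

theorem rate_zero (δ : ℝ) (hδ : 0 < δ) (m : ℕ → ℕ)
    (hm : ∀ᶠ n : ℕ in atTop, m n ≤ 2 ^ (2 * n / ⌊δ * n⌋₊)) :
    Tendsto (fun n : ℕ => Real.logb 2 (m n) / n) atTop (𝓝 0) := by
  have hlim : Tendsto (fun n : ℕ => (4 / δ) / (n : ℝ)) atTop (𝓝 0) :=
    tendsto_const_div_atTop_nhds_zero_nat (4 / δ)
  have hbig : ∀ᶠ n : ℕ in atTop, 2 / δ ≤ (n : ℝ) :=
    (tendsto_natCast_atTop_atTop (R := ℝ)).eventually_ge_atTop (2 / δ)
  refine squeeze_zero' ?_ ?_ hlim
  · filter_upwards with n
    apply div_nonneg _ (Nat.cast_nonneg n)
    rcases Nat.eq_zero_or_pos (m n) with h | h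
    · rw [h]; simp
    · exact Real.logb_nonneg (by norm_num) (by exact_mod_cast h)
  · filter_upwards [hm, hbig] with n h1 h2
    have hn0 : (0 : ℝ) < n := lt_of_lt_of_le (by positivity) h2
    have h3 : 2 ≤ δ * n := by
      have := mul_le_mul_of_nonneg_left h2 hδ.le
      rwa [mul_div_cancel₀ _ hδ.ne'] at this
    have h4 : δ * n / 2 ≤ (⌊δ * (n : ℝ)⌋₊ : ℝ) := by
      have := Nat.lt_floor_add_one (δ * (n : ℝ))
      linarith
    have hd : (0 : ℝ) < (⌊δ * (n : ℝ)⌋₊ : ℝ) := lt_of_lt_of_le (by linarith) h4
    apply div_le_div_of_nonneg_right _ hn0.le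
    rcases Nat.eq_zero_or_pos (m n) with h | h
    · rw [h]
      simp only [Nat.cast_zero, Real.logb_zero]
      positivity
    · have h5 : Real.logb 2 (m n) ≤ ((2 * n / ⌊δ * (n : ℝ)⌋₊ : ℕ) : ℝ) := by
        rw [Real.logb_le_iff_le_rpow (by norm_num) (by exact_mod_cast h), Real.rpow_natCast]
        exact_mod_cast h1
      refine h5.trans ((Nat.cast_div_le).trans ?_)
      rw [div_le_div_iff₀ hd hδ]
      push_cast
      nlinarith

/-- `C` contains the zero word and the sum of any two of its words: a linear code. -/
def IsLinear {n : ℕ} (C : Finset (Fin n → Bool)) : Prop :=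
  (fun _ => false) ∈ C ∧ ∀ x ∈ C, ∀ y ∈ C, (fun i => xor (x i) (y i)) ∈ C

theorem affine_closed_of_linear {n s : ℕ} (f : (Fin s → Bool) → Bool) (ha : IsAffine f)
    (h0 : f (fun _ => false) = false) (C : Finset (Fin n → Bool)) (hC : IsLinear C) :
    Closed (fun _ => f) C := by
  classical
  have hadd : ∀ x y : Fin s → Bool, f (fun j => xor (x j) (y j)) = xor (f x) (f y) := by
    intro x y
    have := ha x y (fun _ => false)
    simpa [h0] using this
  intro x hx
  have key : ∀ S : Finset (Fin s),
      (fun i => f fun j => if j ∈ S then x j i else false) ∈ C := by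
    intro S
    induction S using Finset.induction_on with
    | empty => simpa [h0] using hC.1
    | insert a S haS ih =>
      have hsplit : (fun i => f fun j => if j ∈ insert a S then x j i else false) =
          fun i => xor ((fun i => f fun j => if j ∈ S then x j i else false) i)
            ((fun i => f fun j => if j = a then x a i else false) i) := by
        funext i
        simp only
        rw [← hadd]
        congr 1
        funext j
        by_cases hja : j = a
        · subst hja
          simp [haS]
        · by_cases hjS : j ∈ S
          · simp [hja, hjS]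
          · simp [hja, hjS]
      rw [hsplit]
      apply hC.2 _ ih
      by_cases hfa : f (fun j => if j = a then true else false) = true
      · have : (fun i => f fun j => if j = a then x a i else false) = x a := by
          funext i
          cases hxa : x a i
          · have : (fun j : Fin s => if j = a then false else false) = fun _ => false := by
              funext j; simp
            rw [this, h0]
          · exact hfa
        rw [this]
        exact hx a
      · have : (fun i => f fun j => if j = a then x a i else false) = fun _ => false := by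
          funext i
          cases hxa : x a i
          · have : (fun j : Fin s => if j = a then false else false) = fun _ => false := by
              funext j; simp
            rw [this, h0]
          · simpa using hfa
        rw [this]
        exact hC.1
  have := key Finset.univ
  simpa using this

theorem maxSize_affine {n s : ℕ} (f : (Fin s → Bool) → Bool) (ha : IsAffine f)
    (hid : ∀ a, f (fun _ => a) = a)
    (hcl : ∀ C : Finset (Fin n → Bool), Closed (fun _ => f) C →
      ∀ x ∈ C, ∀ y ∈ C, ∀ z ∈ C, (fun i => xor (x i) (xor (y i) (z i))) ∈ C) (d : ℕ) :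
    maxSize (fun n C => Closed (fun _ : Fin n => f) C) n d =
      maxSize (fun n C => IsLinear C) n d := by
  classical
  apply le_antisymm
  · apply maxSize_le
    intro C hC hmin
    rcases C.eq_empty_or_nonempty with rfl | ⟨x0, hx0⟩
    · simp
    · have hinj : Function.Injective (fun (x : Fin n → Bool) => fun i => xor (x0 i) (x i)) := by
        intro a b hab
        funext i
        have := congrFun hab i
        simpa using this
      have hc : (C.image (fun (x : Fin n → Bool) => fun i => xor (x0 i) (x i))).card = C.card :=
        Finset.card_image_of_injective _ hinj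
      rw [← hc]
      refine le_maxSize (P := fun n C => IsLinear C) _ ?_ ?_
      · constructor
        · refine Finset.mem_image.2 ⟨x0, hx0, ?_⟩
          funext i; simp
        · intro x hx y hy
          obtain ⟨a, ha', rfl⟩ := Finset.mem_image.1 hx
          obtain ⟨b, hb', rfl⟩ := Finset.mem_image.1 hy
          refine Finset.mem_image.2 ⟨_, hcl C hC x0 hx0 a ha' b hb', ?_⟩
          funext i
          show xor (x0 i) (xor (x0 i) (xor (a i) (b i))) =
            xor (xor (x0 i) (a i)) (xor (x0 i) (b i))
          cases x0 i <;> cases a i <;> cases b i <;> rfl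
      · intro x hx y hy hxy
        obtain ⟨a, ha', rfl⟩ := Finset.mem_image.1 hx
        obtain ⟨b, hb', rfl⟩ := Finset.mem_image.1 hy
        have hab : a ≠ b := fun h => hxy (by rw [h])
        refine (hmin a ha' b hb' hab).trans (le_of_eq ?_)
        congr 1
        apply Finset.filter_congr
        intro i _
        simp
  · apply maxSize_le
    intro C hC hmin
    exact le_maxSize (P := fun n C => Closed (fun _ : Fin n => f) C) C
      (affine_closed_of_linear f ha (hid false) C hC) hmin

theorem maxSize_unary {n s : ℕ} (f : (Fin s → Bool) → Bool) (hu : IsUnary f)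
    (hid : ∀ a, f (fun _ => a) = a) (d : ℕ) :
    maxSize (fun n C => Closed (fun _ : Fin n => f) C) n d = maxSize (fun _ _ => True) n d := by
  obtain ⟨j, hj⟩ := hu
  have hval : ∀ x, f x = x j := fun x => (hj x (fun _ => x j) rfl).trans (hid _)
  apply le_antisymm
  · apply maxSize_le
    intro C _ hmin
    exact le_maxSize (P := fun _ _ => True) C trivial hmin
  · apply maxSize_le
    intro C _ hmin
    refine le_maxSize (P := fun n C => Closed (fun _ : Fin n => f) C) C ?_ hmin
    intro x hx
    have : (fun i => f fun j => x j i) = x j := by
      funext i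
      exact hval _
    rw [this]
    exact hx j

end Pool.Agent.U597.PC
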