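import Pool.Agent.U597.PC.Fin

set_option linter.unusedSectionVars false

namespace Pool.Agent.U597.PC

open Classical

variable {ι : Type*} [Fintype ι] [DecidableEq ι] {s : ℕ}

/-- Number of places of `A` in which `x` and `y` differ. -/
def dist (A : Finset ι) (x y : ι → Bool) : ℕ := (A.filter fun i => x i ≠ y i).card

theorem dist_comm' (A : Finset ι) (x y : ι → Bool) : dist A x y = dist A y x := by
  unfold dist
  congr 1
  apply Finset.filter_congr
  intro i _
  exact ⟨Ne.symm, Ne.symm⟩

theorem dist_tri (A : Finset ι) (x y z : ι → Bool) : dist A x z ≤ dist A x y + dist A y z := by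
  unfold dist
  refine (Finset.card_le_card ?_).trans (Finset.card_union_le _ _)
  intro i hi
  rw [Finset.mem_union, Finset.mem_filter, Finset.mem_filter]
  rw [Finset.mem_filter] at hi
  by_cases h : x i = y i
  · exact Or.inr ⟨hi.1, by rw [← h]; exact hi.2⟩
  · exact Or.inl ⟨hi.1, h⟩

theorem dist_mono {A B : Finset ι} (h : A ⊆ B) (x y : ι → Bool) : dist A x y ≤ dist B x y :=
  Finset.card_le_card (Finset.filter_subset_filter _ h)

theorem dist_split {A E : Finset ι} (h : E ⊆ A) (x y : ι → Bool) :
    dist A x y = dist E x y + dist (A \ E) x y := by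
  unfold dist
  rw [← Finset.card_union_of_disjoint]
  · congr 1
    rw [← Finset.filter_union, Finset.union_sdiff_of_subset h]
  · exact Finset.disjoint_filter_filter Finset.disjoint_sdiff

theorem dist_op (A : Finset ι) (g : Bool → Bool → Bool → Bool) (x y z x' y' z' : ι → Bool) :
    dist A (fun i => g (x i) (y i) (z i)) (fun i => g (x' i) (y' i) (z' i)) ≤
      dist A x x' + dist A y y' + dist A z z' := by
  unfold dist
  have : (A.filter fun i => g (x i) (y i) (z i) ≠ g (x' i) (y' i) (z' i)) ⊆
      ((A.filter fun i => x i ≠ x' i) ∪ (A.filter fun i => y i ≠ y' i)) ∪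
        (A.filter fun i => z i ≠ z' i) := by
    intro i hi
    rw [Finset.mem_filter] at hi
    simp only [Finset.mem_union, Finset.mem_filter]
    by_contra hcon
    push Not at hcon
    obtain ⟨⟨h1, h2⟩, h3⟩ := hcon
    apply hi.2
    rw [h1 hi.1, h2 hi.1, h3 hi.1]
  refine (Finset.card_le_card this).trans ((Finset.card_union_le _ _).trans ?_)
  exact Nat.add_le_add_right (Finset.card_union_le _ _) _

/-- Approximately closed on `A`. -/
def Q (g : Bool → Bool → Bool → Bool) (κ : ℕ) (A : Finset ι) (D : Finset (ι → Bool)) : Prop :=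
  ∀ x ∈ D, ∀ y ∈ D, ∀ z ∈ D, ∃ w ∈ D, dist A w (fun i => g (x i) (y i) (z i)) ≤ κ

theorem robust (g : Bool → Bool → Bool → Bool) (hid : ∀ a, g a a a = a) (κ h : ℕ)
    (hκ : 5 * κ < h)
    (hdich : ∀ (A : Finset ι) (D : Finset (ι → Bool)), Q g κ A D →
      (∀ x ∈ D, ∀ y ∈ D, x ≠ y → h ≤ dist A x y) → 2 ≤ D.card →
      ∃ x ∈ D, ∃ y ∈ D, x ≠ y ∧ ∀ z ∈ D, dist (A.filter fun i => x i ≠ y i) z x ≤ 2 * κ ∨
        dist (A.filter fun i => x i ≠ y i) z y ≤ 2 * κ) :
    ∀ (k : ℕ) (A : Finset ι) (D : Finset (ι → Bool)), A.card = k → Q g κ A D →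
      (∀ x ∈ D, ∀ y ∈ D, x ≠ y → h + 4 * κ * (A.card / h) ≤ dist A x y) →
      D.card ≤ 2 ^ (A.card / h) := by
  intro k
  induction k using Nat.strong_induction_on with
  | _ k ih =>
  intro A D hA hQ hd
  by_cases hc : 2 ≤ D.card
  · obtain ⟨x, hx, y, hy, hxy, hz⟩ := hdich A D hQ
      (fun x hx y hy hxy => le_trans (Nat.le_add_right _ _) (hd x hx y hy hxy)) hc
    set E := A.filter fun i => x i ≠ y i with hE
    have hEc : E.card = dist A x y := rfl
    have hEd : h + 4 * κ * (A.card / h) ≤ E.card := hd x hx y hy hxy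
    have hEA : E ⊆ A := Finset.filter_subset _ _
    have hExy : dist E x y = E.card := by
      unfold dist
      congr 1
      apply Finset.filter_true_of_mem
      intro i hi
      exact (Finset.mem_filter.1 hi).2
    have hAE : (A \ E).card = A.card - E.card := Finset.card_sdiff_of_subset hEA
    have hle : E.card ≤ A.card := Finset.card_le_card hEA
    have hdiv : (A \ E).card / h + 1 ≤ A.card / h := by
      rw [hAE]
      have : (A.card - E.card) / h + 1 = (A.card - E.card + h) / h := by
        rw [Nat.add_div_right _ (by omega)]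
      rw [this]
      exact Nat.div_le_div_right (by omega)
    have hA1 : 1 ≤ A.card / h := le_trans (Nat.le_add_left 1 _) hdiv
    have hE9 : 9 * κ < E.card := by
      have : 4 * κ * 1 ≤ 4 * κ * (A.card / h) := Nat.mul_le_mul_left _ hA1
      omega
    have key : ∀ v ∈ D, ∀ v' ∈ D, dist E v v' = E.card →
        (∀ z ∈ D, dist E z v ≤ 2 * κ ∨ dist E z v' ≤ 2 * κ) →
        (D.filter fun z => dist E z v ≤ 2 * κ).card ≤ 2 ^ ((A \ E).card / h) := by
      intro v hv v' hv' hvv hz'
      refine ih (A \ E).card (by omega) (A \ E) _ rfl ?_ ?_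
      · intro a ha b hb c hc'
        rw [Finset.mem_filter] at ha hb hc'
        obtain ⟨w, hw, hw2⟩ := hQ a ha.1 b hb.1 c hc'.1
        refine ⟨w, Finset.mem_filter.2 ⟨hw, ?_⟩, (dist_mono Finset.sdiff_subset _ _).trans hw2⟩
        rcases hz' w hw with h1 | h1
        · exact h1
        · exfalso
          have e1 := dist_op E g a b c v v v
          have e2 : (fun i => g (v i) (v i) (v i)) = v := funext fun i => hid (v i)
          rw [e2] at e1
          have e3 : dist E w (fun i => g (a i) (b i) (c i)) ≤ κ :=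
            (dist_mono hEA _ _).trans hw2
          have e4 := dist_tri E w (fun i => g (a i) (b i) (c i)) v
          have e5 := dist_tri E v w v'
          rw [dist_comm' E v w] at e5
          omega
      · intro a ha b hb hab
        rw [Finset.mem_filter] at ha hb
        have e1 := hd a ha.1 b hb.1 hab
        have e2 := dist_split hEA a b
        have e3 := dist_tri E a v b
        rw [dist_comm' E v b] at e3
        have e4 : 4 * κ * ((A \ E).card / h + 1) ≤ 4 * κ * (A.card / h) :=
          Nat.mul_le_mul_left _ hdiv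
        have e5 : 4 * κ * ((A \ E).card / h + 1) = 4 * κ * ((A \ E).card / h) + 4 * κ := by ring
        omega
    have hcov : D ⊆ (D.filter fun z => dist E z x ≤ 2 * κ) ∪
        (D.filter fun z => dist E z y ≤ 2 * κ) := by
      intro z hzD
      rcases hz z hzD with h' | h'
      · exact Finset.mem_union_left _ (Finset.mem_filter.2 ⟨hzD, h'⟩)
      · exact Finset.mem_union_right _ (Finset.mem_filter.2 ⟨hzD, h'⟩)
    calc D.card ≤ _ := Finset.card_le_card hcov
      _ ≤ _ := Finset.card_union_le _ _
      _ ≤ 2 ^ ((A \ E).card / h) + 2 ^ ((A \ E).card / h) :=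
        Nat.add_le_add (key x hx y hy hExy hz) (key y hy x hx (by rw [dist_comm', hExy])
          (fun z hz'' => (hz z hz'').symm))
      _ = 2 ^ ((A \ E).card / h + 1) := by ring
      _ ≤ 2 ^ (A.card / h) := Nat.pow_le_pow_right (by norm_num) hdiv
  · have : D.card ≤ 1 := by omega
    exact this.trans Nat.one_le_two_pow

theorem dich_maj (κ h : ℕ) (hκ : 5 * κ < h) (A : Finset ι) (D : Finset (ι → Bool))
    (hQ : Q (sd false false false) κ A D) (hd : ∀ x ∈ D, ∀ y ∈ D, x ≠ y → h ≤ dist A x y)
    (h2 : 2 ≤ D.card) :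
    ∃ x ∈ D, ∃ y ∈ D, x ≠ y ∧ ∀ z ∈ D, dist (A.filter fun i => x i ≠ y i) z x ≤ 2 * κ ∨
        dist (A.filter fun i => x i ≠ y i) z y ≤ 2 * κ := by
  have m1 : ∀ a b : Bool, sd false false false a a b = a := by decide
  have m2 : ∀ a b c : Bool, a ≠ b → sd false false false a b c = c := by decide
  obtain ⟨x0, hx0, y0, hy0, hxy0⟩ := Finset.one_lt_card.1 h2
  have hne : ((D ×ˢ D).filter fun p => p.1 ≠ p.2).Nonempty :=
    ⟨(x0, y0), Finset.mem_filter.2 ⟨Finset.mem_product.2 ⟨hx0, hy0⟩, hxy0⟩⟩
  obtain ⟨⟨x, y⟩, hxy, hmn⟩ := Finset.exists_min_image _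
    (fun p : (ι → Bool) × (ι → Bool) => dist A p.1 p.2) hne
  rw [Finset.mem_filter, Finset.mem_product] at hxy
  obtain ⟨⟨hx, hy⟩, hne'⟩ := hxy
  dsimp only at hx hy hne' hmn
  have hmn' : ∀ u ∈ D, ∀ v ∈ D, u ≠ v → dist A x y ≤ dist A u v := fun u hu v hv huv =>
    hmn (u, v) (Finset.mem_filter.2 ⟨Finset.mem_product.2 ⟨hu, hv⟩, huv⟩)
  refine ⟨x, hx, y, hy, hne', fun z hz => ?_⟩
  obtain ⟨w, hw, hwκ⟩ := hQ x hx y hy z hz
  set t : ι → Bool := fun i => sd false false false (x i) (y i) (z i) with ht
  set E := A.filter fun i => x i ≠ y i with hE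
  have hEA : E ⊆ A := Finset.filter_subset _ _
  have hon : ∀ i ∈ E, t i = z i := fun i hi => m2 _ _ _ (Finset.mem_filter.1 hi).2
  have hzt : ∀ v, dist E z v = dist E t v := by
    intro v
    unfold dist
    congr 1
    apply Finset.filter_congr
    intro i hi
    rw [hon i hi]
  by_cases h1 : w = x
  · left
    rw [hzt]
    subst h1
    rw [dist_comm']
    exact ((dist_mono hEA _ _).trans hwκ).trans (by omega)
  · by_cases h3 : w = y
    · right
      rw [hzt]
      subst h3
      rw [dist_comm']
      exact ((dist_mono hEA _ _).trans hwκ).trans (by omega)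
    · exfalso
      have e1 := hmn' x hx w hw (Ne.symm h1)
      have e2 := hmn' w hw y hy h3
      have e3 := dist_tri A x t w
      have e4 := dist_tri A w t y
      rw [dist_comm' A t w] at e3
      have e5 : dist A x t + dist A t y = dist A x y := by
        unfold dist
        rw [← Finset.card_union_of_disjoint]
        · congr 1
          ext i
          simp only [Finset.mem_union, Finset.mem_filter]
          constructor
          · rintro (⟨hi, hi'⟩ | ⟨hi, hi'⟩)
            · refine ⟨hi, fun hh => hi' ?_⟩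
              simp only [ht]
              rw [← hh, m1]
            · refine ⟨hi, fun hh => hi' ?_⟩
              simp only [ht]
              rw [hh, m1]
          · rintro ⟨hi, hi'⟩
            by_cases hh : x i = t i
            · right
              exact ⟨hi, by rw [← hh]; exact hi'⟩
            · left
              exact ⟨hi, hh⟩
        · rw [Finset.disjoint_left]
          intro i hi hi'
          rw [Finset.mem_filter] at hi hi'
          have a1 : x i ≠ y i := by
            intro hh
            apply hi.2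
            simp only [ht]
            rw [← hh, m1]
          exact a1 (bool_ne hi.2 (Ne.symm hi'.2))
      have e6 := hd x hx y hy hne'
      omega

end Pool.Agent.U597.PC
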