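import Pool.Agent.U597.PC.Robust

set_option linter.unusedSectionVars false

namespace Pool.Agent.U597.PC

open Classical

variable {ι : Type*} [Fintype ι] [DecidableEq ι] {s : ℕ}

theorem wt_claim (g : Bool → Bool → Bool) (hid : ∀ a, g a a = a)
    (hg : g false true = g true false) (κ : ℕ) (A : Finset ι) (u x z : ι → Bool)
    (hz : dist A z (fun i => g (u i) (x i)) ≤ κ)
    (hw : (A.filter fun i => z i = g false true).card ≤
      (A.filter fun i => u i = g false true).card) :
    (A.filter fun i => u i ≠ g false true ∧ x i = g false true).card ≤ κ := by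
  set c := g false true with hc
  have h1 : (A.filter fun i => u i = c).card + (A.filter fun i => u i ≠ c ∧ x i = c).card ≤
      (A.filter fun i => z i = c).card + dist A z (fun i => g (u i) (x i)) := by
    rw [← Finset.card_union_of_disjoint]
    · refine (Finset.card_le_card ?_).trans (Finset.card_union_le _ _)
      intro i hi
      have hgi : i ∈ A ∧ g (u i) (x i) = c := by
        rcases Finset.mem_union.1 hi with h | h
        · rw [Finset.mem_filter] at h
          exact ⟨h.1, (Bval hid hg _ _).2 (Or.inl h.2)⟩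
        · rw [Finset.mem_filter] at h
          exact ⟨h.1, (Bval hid hg _ _).2 (Or.inr h.2.2)⟩
      rw [Finset.mem_union, Finset.mem_filter, Finset.mem_filter]
      by_cases hzi : z i = c
      · exact Or.inl ⟨hgi.1, hzi⟩
      · exact Or.inr ⟨hgi.1, fun h => hzi (h.trans hgi.2)⟩
    · rw [Finset.disjoint_left]
      intro i hi hi'
      exact (Finset.mem_filter.1 hi').2.1 (Finset.mem_filter.1 hi).2
  omega

theorem dich_semi (g : Bool → Bool → Bool) (hid : ∀ a, g a a = a)
    (hg : g false true = g true false) (κ : ℕ) (A : Finset ι) (D : Finset (ι → Bool))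
    (hQ : Q (fun a b _ => g a b) κ A D) (h2 : 2 ≤ D.card) :
    ∃ x ∈ D, ∃ y ∈ D, x ≠ y ∧ ∀ z ∈ D, dist (A.filter fun i => x i ≠ y i) z x ≤ 2 * κ ∨
        dist (A.filter fun i => x i ≠ y i) z y ≤ 2 * κ := by
  have hne : D.Nonempty := Finset.card_pos.1 (by omega)
  set c := g false true with hc
  obtain ⟨m, hm, hmax⟩ := Finset.exists_max_image D
    (fun x => (A.filter fun i => x i = c).card) hne
  have hne2 : (D.erase m).Nonempty := by
    rw [← Finset.card_pos, Finset.card_erase_of_mem hm]
    omega
  obtain ⟨a, ha', hamax⟩ := Finset.exists_max_image (D.erase m)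
    (fun x => (A.filter fun i => x i = c).card) hne2
  have haD := Finset.mem_of_mem_erase ha'
  have ham : a ≠ m := Finset.ne_of_mem_erase ha'
  have hE2 : (A.filter fun i => m i ≠ c ∧ a i = c).card ≤ κ := by
    obtain ⟨z, hz, hzκ⟩ := hQ m hm a haD a haD
    exact wt_claim g hid hg κ A m a z hzκ (hmax z hz)
  refine ⟨a, haD, m, hm, ham, fun x hx => ?_⟩
  obtain ⟨z, hz, hzκ⟩ := hQ a haD x hx x hx
  by_cases hzm : z = m
  · right
    subst hzm
    have : ((A.filter fun i => a i ≠ z i).filter fun i => x i ≠ z i) ⊆
        (A.filter fun i => z i ≠ g (a i) (x i)) ∪ (A.filter fun i => z i ≠ c ∧ a i = c) := by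
      intro i hi
      rw [Finset.mem_filter, Finset.mem_filter] at hi
      obtain ⟨⟨hiA, h1⟩, h3⟩ := hi
      rw [Finset.mem_union, Finset.mem_filter, Finset.mem_filter]
      by_cases hac : a i = c
      · right
        exact ⟨hiA, fun h => h1 (hac.trans h.symm), hac⟩
      · left
        refine ⟨hiA, fun h => ?_⟩
        have hzc : z i = c := by
          by_contra h4
          exact h1 (bool_ne hac h4)
        rw [hzc] at h
        rcases (Bval hid hg _ _).1 h.symm with h5 | h5
        · exact hac h5
        · exact h3 (h5.trans hzc.symm)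
    have e := (Finset.card_le_card this).trans (Finset.card_union_le _ _)
    have hzκ' : (A.filter fun i => z i ≠ g (a i) (x i)).card ≤ κ := hzκ
    unfold dist
    omega
  · left
    have hF : (A.filter fun i => a i ≠ c ∧ x i = c).card ≤ κ :=
      wt_claim g hid hg κ A a x z hzκ (hamax z (Finset.mem_erase.2 ⟨hzm, hz⟩))
    have : ((A.filter fun i => a i ≠ m i).filter fun i => x i ≠ a i) ⊆
        (A.filter fun i => a i ≠ c ∧ x i = c) ∪ (A.filter fun i => m i ≠ c ∧ a i = c) := by
      intro i hi
      rw [Finset.mem_filter, Finset.mem_filter] at hi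
      obtain ⟨⟨hiA, h1⟩, h3⟩ := hi
      rw [Finset.mem_union, Finset.mem_filter, Finset.mem_filter]
      by_cases hac : a i = c
      · right
        exact ⟨hiA, fun h => h1 (hac.trans h.symm), hac⟩
      · left
        refine ⟨hiA, hac, ?_⟩
        by_contra h4
        exact h3 (bool_ne h4 hac)
    have e := (Finset.card_le_card this).trans (Finset.card_union_le _ _)
    unfold dist
    omega

theorem dist_self' (A : Finset ι) (x : ι → Bool) : dist A x x = 0 := by
  unfold dist
  simp

theorem Q_n1 {g : Bool → Bool → Bool → Bool} {κ : ℕ} {A : Finset ι} {D : Finset (ι → Bool)}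
    (h : Q g κ A D) : Q (n1 g) (2 * κ) A D := by
  intro x hx y hy z hz
  obtain ⟨w1, hw1, e1⟩ := h x hx y hy z hz
  obtain ⟨w2, hw2, e2⟩ := h w1 hw1 y hy z hz
  refine ⟨w2, hw2, ?_⟩
  have e3 := dist_op A g w1 y z (fun i => g (x i) (y i) (z i)) y z
  rw [dist_self', dist_self'] at e3
  have e4 := dist_tri A w2 (fun i => g (w1 i) (y i) (z i))
    (fun i => g (g (x i) (y i) (z i)) (y i) (z i))
  unfold n1
  omega

theorem Q_n2 {g : Bool → Bool → Bool → Bool} {κ : ℕ} {A : Finset ι} {D : Finset (ι → Bool)}
    (h : Q g κ A D) : Q (n2 g) (2 * κ) A D := by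
  intro x hx y hy z hz
  obtain ⟨w1, hw1, e1⟩ := h x hx y hy z hz
  obtain ⟨w2, hw2, e2⟩ := h x hx y hy w1 hw1
  refine ⟨w2, hw2, ?_⟩
  have e3 := dist_op A g x y w1 x y (fun i => g (x i) (y i) (z i))
  rw [dist_self', dist_self'] at e3
  have e4 := dist_tri A w2 (fun i => g (x i) (y i) (w1 i))
    (fun i => g (x i) (y i) (g (x i) (y i) (z i)))
  unfold n2
  omega

theorem Q_n3 {g : Bool → Bool → Bool → Bool} {κ : ℕ} {A : Finset ι} {D : Finset (ι → Bool)}
    (h : Q g κ A D) : Q (n3 g) (2 * κ) A D := by
  intro x hx y hy z hz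
  obtain ⟨w1, hw1, e1⟩ := h x hx y hy z hz
  obtain ⟨w2, hw2, e2⟩ := h x hx w1 hw1 z hz
  refine ⟨w2, hw2, ?_⟩
  have e3 := dist_op A g x w1 z x (fun i => g (x i) (y i) (z i)) z
  rw [dist_self', dist_self'] at e3
  have e4 := dist_tri A w2 (fun i => g (x i) (w1 i) (z i))
    (fun i => g (x i) (g (x i) (y i) (z i)) (z i))
  unfold n3
  omega

theorem Q_mono {g : Bool → Bool → Bool → Bool} {κ κ' : ℕ} {A : Finset ι}
    {D : Finset (ι → Bool)} (h : Q g κ A D) (hκ : κ ≤ κ') : Q g κ' A D := by
  intro x hx y hy z hz
  obtain ⟨w, hw, e⟩ := h x hx y hy z hz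
  exact ⟨w, hw, e.trans hκ⟩

/-- For all `x j` in `C` some element of `C` differs from `f (x 0, x 1, ...)` in at most `e`
places. -/
def NearlyClosed (f : (Fin s → Bool) → Bool) (e : ℕ) (C : Finset (ι → Bool)) : Prop :=
  ∀ x : Fin s → ι → Bool, (∀ j, x j ∈ C) →
    ∃ z ∈ C, (Finset.univ.filter fun i => z i ≠ f fun j => x j i).card ≤ e

theorem nearly (f : (Fin s → Bool) → Bool) (hf : f (fun _ => false) ≠ f (fun _ => true))
    (hna : ¬ IsAffine f) (d e : ℕ) (hd : 1 ≤ d) (C : Finset (ι → Bool)) (hmin : MinDist d C)
    (hC : NearlyClosed f e C) (he : 256 * e * Fintype.card ι ≤ d * d) :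
    C.card ≤ 2 ^ (2 * Fintype.card ι / d) := by
  by_cases hcard : C.card ≤ 1
  · exact hcard.trans Nat.one_le_two_pow
  have h2 : 2 ≤ C.card := by omega
  obtain ⟨x0, hx0, y0, hy0, hxy0⟩ := Finset.one_lt_card.1 h2
  have hdn : d ≤ Fintype.card ι := by
    refine (hmin x0 hx0 y0 hy0 hxy0).trans ?_
    exact Finset.card_le_univ _
  set n := Fintype.card ι with hn
  set G : (Fin s → Bool) → Bool := fun v => f (fun _ => f v) with hG
  have hcase : (∀ v, G v = f v) ∨ (∀ v, G v = !(f v)) := by
    rcases h0 : f (fun _ => false) with _ | _ <;> rcases h1 : f (fun _ => true) with _ | _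
    · rw [h0, h1] at hf
      exact absurd rfl hf
    · left
      intro v
      simp only [hG]
      cases f v
      · exact h0
      · exact h1
    · right
      intro v
      simp only [hG]
      cases f v
      · simpa using h0
      · simpa using h1
    · rw [h0, h1] at hf
      exact absurd rfl hf
  have hid : ∀ a, G (fun _ => a) = a := by
    intro a
    simp only [hG]
    rcases h0 : f (fun _ => false) with _ | _ <;> rcases h1 : f (fun _ => true) with _ | _
    · rw [h0, h1] at hf
      exact absurd rfl hf
    · cases a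
      · rw [h0, h0]
      · rw [h1, h1]
    · cases a
      · rw [h0, h1]
      · rw [h1, h0]
    · rw [h0, h1] at hf
      exact absurd rfl hf
  have hGna : ¬ IsAffine G := by
    rcases hcase with h | h
    · have : G = f := funext h
      rw [this]
      exact hna
    · have : G = fun v => !(f v) := funext h
      rw [this, affine_not]
      exact hna
  have hGC : ∀ x : Fin s → ι → Bool, (∀ j, x j ∈ C) →
      ∃ z ∈ C, dist Finset.univ z (fun i => G fun j => x j i) ≤ 2 * e := by
    intro x hx
    obtain ⟨z1, hz1, e1⟩ := hC x hx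
    obtain ⟨z2, hz2, e2⟩ := hC (fun _ => z1) (fun _ => hz1)
    refine ⟨z2, hz2, ?_⟩
    have e3 : dist Finset.univ (fun i => f (fun _ => z1 i)) (fun i => G fun j => x j i) ≤ e := by
      refine (Finset.card_le_card ?_).trans e1
      intro i hi
      rw [Finset.mem_filter] at hi ⊢
      refine ⟨hi.1, fun h => hi.2 ?_⟩
      simp only [hG]
      rw [h]
    have e4 := dist_tri Finset.univ z2 (fun i => f (fun _ => z1 i)) (fun i => G fun j => x j i)
    have e5 : dist Finset.univ z2 (fun i => f (fun _ => z1 i)) ≤ e := e2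
    omega
  -- the parameters
  set h := (d + 1) / 2 with hh
  have hn0 : 0 < n := by omega
  have he1 : 256 * e ≤ d := by
    have : 256 * e * n ≤ d * n := he.trans (Nat.mul_le_mul_left d hdn)
    exact Nat.le_of_mul_le_mul_right this hn0
  have hh80 : 5 * (16 * e) < h := by omega
  have hh0 : 0 < h := by omega
  have hq : n / h * d ≤ 2 * n := by
    have a1 : n / h * h ≤ n := Nat.div_mul_le_self n h
    have a2 : d ≤ h * 2 := by omega
    calc n / h * d ≤ n / h * (h * 2) := Nat.mul_le_mul_left _ a2
      _ = n / h * h * 2 := by ring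
      _ ≤ n * 2 := Nat.mul_le_mul_right 2 a1
      _ = 2 * n := by ring
  have hq2 : 2 * (4 * (16 * e) * (n / h)) ≤ d := by
    have a1 : 2 * (4 * (16 * e) * (n / h)) * d ≤ d * d := by
      calc 2 * (4 * (16 * e) * (n / h)) * d = 128 * e * (n / h * d) := by ring
        _ ≤ 128 * e * (2 * n) := Nat.mul_le_mul_left _ hq
        _ = 256 * e * n := by ring
        _ ≤ d * d := he
    exact Nat.le_of_mul_le_mul_right a1 (by omega)
  have hcond : ∀ x ∈ C, ∀ y ∈ C, x ≠ y →
      h + 4 * (16 * e) * ((Finset.univ : Finset ι).card / h) ≤ dist Finset.univ x y := by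
    intro x hx y hy hxy
    have a1 := hmin x hx y hy hxy
    have a2 : (Finset.univ : Finset ι).card = n := Finset.card_univ
    rw [a2]
    unfold dist
    have a3 : h + 4 * (16 * e) * (n / h) ≤ d := by
      generalize 4 * (16 * e) * (n / h) = t at hq2 ⊢
      omega
    exact a3.trans a1
  have hfin : C.card ≤ 2 ^ ((Finset.univ : Finset ι).card / h) → C.card ≤ 2 ^ (2 * n / d) := by
    intro h3
    refine h3.trans (Nat.pow_le_pow_right (by norm_num) ?_)
    have a2 : (Finset.univ : Finset ι).card = n := Finset.card_univ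
    rw [a2, Nat.le_div_iff_mul_le (by omega)]
    exact hq
  apply hfin
  by_cases hb : ∃ v, G (fun j => !(v j)) = G v
  · obtain ⟨v, hv⟩ := hb
    set g : Bool → Bool → Bool := fun a b => bm (fun _ : Unit => G) v () a b with hg
    have hg0 : ∀ a, g a a = a := by
      intro a
      simp only [hg, bm]
      simp [hid]
    have hg1 : g false true = g true false := by
      simp only [hg]
      rw [bm01, bm10, hv]
    have hQ : Q (fun a b _ => g a b) (16 * e) Finset.univ C := by
      intro x hx y hy z _
      obtain ⟨w, hw, hwe⟩ := hGC (fun j => if v j then y else x) (fun j => by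
        by_cases h : v j = true
        · simp [h, hy]
        · simp [h, hx])
      refine ⟨w, hw, ?_⟩
      have : (fun i => G fun j => (if v j then y else x) i) =
          fun i => g (x i) (y i) := by
        funext i
        simp only [hg, bm]
        congr 1
        funext j
        cases v j <;> simp
      rw [this] at hwe
      exact le_trans hwe (by omega)
    exact robust (fun a b _ => g a b) (fun a => hg0 a) (16 * e) h hh80
      (fun A D hQD _ hD2 => dich_semi g hg0 hg1 (16 * e) A D hQD hD2) _ _ C rfl hQ hcond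
  · push Not at hb
    obtain ⟨π, hπ⟩ := not_affine (G := fun _ : Unit => G) (i := ()) hGna hb
    have hsd : ∀ v, G (fun j => !(v j)) = !(G v) := by
      intro v
      have := hb v
      revert this
      cases G (fun j => !(v j)) <;> cases G v <;> simp
    have htm := tm_sd (G := fun _ : Unit => G) (i := ()) hid hsd π
    have hQ : Q (tm (fun _ : Unit => G) π ()) (2 * e) Finset.univ C := by
      intro x hx y hy z hz
      obtain ⟨w, hw, hwe⟩ := hGC (fun j => if π j = 0 then x else if π j = 1 then y else z)
        (fun j => by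
          split_ifs
          · exact hx
          · exact hy
          · exact hz)
      refine ⟨w, hw, ?_⟩
      have : (fun i => G fun j => (if π j = 0 then x else if π j = 1 then y else z) i) =
          fun i => tm (fun _ : Unit => G) π () (x i) (y i) (z i) := by
        funext i
        unfold tm pick
        congr 1
        funext j
        split_ifs <;> rfl
      rw [this] at hwe
      exact hwe
    have hQ2 := Q_n3 (Q_n2 (Q_n1 hQ))
    obtain ⟨p', q', r', -, h4, -, h5⟩ := norm_code
      (tm (fun _ : Unit => G) π () true false false)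
      (tm (fun _ : Unit => G) π () false true false)
      (tm (fun _ : Unit => G) π () false false true)
    obtain ⟨rfl, rfl, rfl⟩ := h4 hπ
    have heq : n3 (n2 (n1 (tm (fun _ : Unit => G) π ()))) = sd false false false := by
      funext a b c
      rw [htm]
      exact h5 a b c
    rw [heq] at hQ2
    have hQ3 : Q (sd false false false) (16 * e) Finset.univ C := Q_mono hQ2 (by omega)
    exact robust _ (by decide) (16 * e) h hh80
      (fun A D hQD hDd hD2 => dich_maj (16 * e) h hh80 A D hQD hDd hD2) _ _ C rfl hQ3 hcond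

end Pool.Agent.U597.PC
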